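import Pool.Agent.W2helper75.OB.Lat
import Pool.Agent.W597.PDBL

/-!
The outer boundary of the limits of the closed path has dimension at most `4/3`.
-/

set_option autoImplicit false

namespace Pool.Agent.W2helper75.OB

open H974 H12S Finset H389NS H984P H984N H342P H342L H342T
open MeasureTheory Filter Topology Pool.Agent.W92.DP Pool.Agent.W822.PD Pool.Agent.W978.PDUL
open Pool.Agent.W424.OD Pool.Agent.W462.DPL
open scoped ENNReal NNReal

/-! ### Topology -/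

theorem unb_open {K : Set ℂ} (hK : IsClosed K) : IsOpen (unb K) := by
  have hop : IsOpen Kᶜ := hK.isOpen_compl
  rw [isOpen_iff_mem_nhds]
  rintro z ⟨hz1, hz2⟩
  have h1 : IsOpen (connectedComponentIn Kᶜ z) := hop.connectedComponentIn
  refine mem_of_superset (h1.mem_nhds (mem_connectedComponentIn hz1)) ?_
  intro y hy
  refine ⟨connectedComponentIn_subset _ _ hy, ?_⟩
  rw [← connectedComponentIn_eq hy]
  exact hz2

theorem oB_sub {K : Set ℂ} (hK : IsClosed K) : oB K ⊆ K := by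
  intro z hz
  have hop : IsOpen Kᶜ := hK.isOpen_compl
  unfold oB at hz
  rw [(unb_open hK).frontier_eq] at hz
  obtain ⟨hz1, hz2⟩ := hz
  by_contra hcon
  apply hz2
  have h1 : IsOpen (connectedComponentIn Kᶜ z) := hop.connectedComponentIn
  have hm := h1.mem_nhds (mem_connectedComponentIn hcon)
  obtain ⟨y, hy1, hy2⟩ := mem_closure_iff_nhds.1 hz1 _ hm
  refine ⟨hcon, ?_⟩
  rw [connectedComponentIn_eq hy1]
  exact hy2.2

/-- a path from a point close to the outer boundary to distance `10` -/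
theorem exists_path {K : Set ℂ} (hK : IsClosed K) {w : ℂ} (hw : w ∈ oB K) {r : ℝ} (hr : 0 < r) :
    ∃ g : C(unitInterval, ℂ), dist (g 0) w < r ∧ 10 < ‖g 1‖ ∧ ∀ t, g t ∉ K := by
  have hop : IsOpen Kᶜ := hK.isOpen_compl
  obtain ⟨y, hy1, hy2⟩ := Metric.mem_closure_iff.1 (frontier_subset_closure hw) r hr
  have hb : ∃ x ∈ connectedComponentIn Kᶜ y, 10 < ‖x‖ := by
    by_contra hcon
    push Not at hcon
    exact hy1.2 (isBounded_iff_forall_norm_le.2 ⟨10, hcon⟩)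
  obtain ⟨x, hx1, hx2⟩ := hb
  have hym : y ∈ connectedComponentIn Kᶜ y := mem_connectedComponentIn hy1.1
  have hcon : IsConnected (connectedComponentIn Kᶜ y) :=
    ⟨⟨y, hym⟩, isPreconnected_connectedComponentIn⟩
  have hpc := (hop.connectedComponentIn.isConnected_iff_isPathConnected).1 hcon
  have hj := hpc.joinedIn y hym x hx1
  refine ⟨hj.somePath.toContinuousMap, ?_, ?_, fun t => ?_⟩
  · show dist (hj.somePath 0) w < r
    rw [hj.somePath.source, dist_comm]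
    exact hy2
  · show 10 < ‖hj.somePath 1‖
    rw [hj.somePath.target]
    exact hx2
  · exact connectedComponentIn_subset _ _ (hj.somePath_mem t)

theorem range_closed (f : C(unitInterval, ℂ)) : IsClosed (Set.range f) :=
  (isCompact_range f.continuous).isClosed

/-- the event without clearance -/
def EvU (z : ℂ) (r ρ : ℝ) : Set Curve := ⋃ m : ℕ, EvO z r ρ (1 / ((m : ℝ) + 1))

theorem EvU_open (z : ℂ) (r ρ : ℝ) : IsOpen (EvU z r ρ) := isOpen_iUnion fun _ => EvO_open _ _ _ _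

theorem EvO_anti {z : ℂ} {r ρ ζ ζ' : ℝ} (h : ζ ≤ ζ') : EvO z r ρ ζ' ⊆ EvO z r ρ ζ := by
  rintro c ⟨h1, h2, g, h3, h4, h5⟩
  exact ⟨h1, h2, g, h3, h4, fun s t => h.trans_lt (h5 s t)⟩

theorem EvU_mono (z : ℂ) (r ρ : ℝ) : Monotone fun m : ℕ => EvO z r ρ (1 / ((m : ℝ) + 1)) := by
  intro a b hab
  apply EvO_anti
  have : (a : ℝ) ≤ b := by exact_mod_cast hab
  exact one_div_le_one_div_of_le (by positivity) (by linarith)

/-- A point of the outer boundary near `z` forces the event. -/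
theorem EvU_of {c : Curve} {z w : ℂ} {r ρ : ℝ} (hw : w ∈ oB (Set.range c.path))
    (hwz : dist w z < r) (hd : 2 * ρ < Metric.diam (Set.range c.path)) (hρ : 0 ≤ ρ) :
    c ∈ EvU z r ρ := by
  have hcl := range_closed c.path
  obtain ⟨g, hg0, hg1, hg⟩ := exists_path hcl hw (r := r - dist w z) (by linarith)
  obtain ⟨s, hs⟩ := oB_sub hcl hw
  have hfar : ∃ s, ρ < dist (c.path s) z := by
    by_contra hcon
    push Not at hcon
    have h1 : Metric.diam (Set.range c.path) ≤ 2 * ρ := by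
      apply Metric.diam_le_of_forall_dist_le (by linarith)
      rintro _ ⟨a, rfl⟩ _ ⟨b, rfl⟩
      have := dist_triangle_right (c.path a) (c.path b) z
      linarith [hcon a, hcon b]
    linarith
  -- clearance
  have hcont : Continuous (fun x : unitInterval × unitInterval => dist (g x.1) (c.path x.2)) :=
    (g.continuous.comp continuous_fst).dist (c.path.continuous.comp continuous_snd)
  obtain ⟨x0, -, hx0⟩ := isCompact_univ.exists_isMinOn (Set.univ_nonempty) hcont.continuousOn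
  have hx1 : ∀ a b, dist (g x0.1) (c.path x0.2) ≤ dist (g a) (c.path b) :=
    fun a b => hx0 (Set.mem_univ (a, b))
  have hx2 : 0 < dist (g x0.1) (c.path x0.2) := by
    rw [dist_pos]
    intro h
    exact hg x0.1 ⟨x0.2, h.symm⟩
  obtain ⟨m, hm⟩ := exists_nat_one_div_lt hx2
  refine Set.mem_iUnion.2 ⟨m, ⟨s, by rw [hs]; exact hwz⟩, hfar, g, ?_, hg1, fun a b =>
    hm.trans_le (hx1 _ _)⟩
  have := dist_triangle (g 0) w z
  linarith

/-! ### Probability -/

theorem prob_leO (hU : U3) {sel : (n : ℕ) → Finset Plain.Edge → ℤ × ℤ}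
    {γ : (n : ℕ) → Finset Plain.Edge → Curve} (hT : Tr sel γ) :
    ∃ C : ℝ, 0 < C ∧ ∀ (z : ℂ) (r d ζ : ℝ) (n : ℕ), 0 < r → r ≤ d →
      Metric.ball z d ⊆ Sq → 0 < n → 1 / (n : ℝ) ≤ r → 4 / (n : ℝ) ≤ ζ →
        (lawOf n (γ n) : Measure Curve) (EvO z r (d / 2) ζ) ≤
          ENNReal.ofReal (C * (r / d) ^ (2/3 : ℝ)) := by
  obtain ⟨C0, hC0, hU'⟩ := hU
  refine ⟨(C0 + 1) * 256 ^ (2/3 : ℝ), by positivity, ?_⟩
  intro z r d ζ n hr hrd hball hn hδr hζ
  have hδ : (0:ℝ) < 1 / n := by positivity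
  have hd0 : 0 < d := hr.trans_le hrd
  rw [lawOf_apply _ _ (EvO_open z r (d / 2) ζ).measurableSet]
  apply ENNReal.ofReal_le_ofReal
  have hq : 0 < r / d := by positivity
  have hRHS : (C0 + 1) * 256 ^ (2/3 : ℝ) * (r / d) ^ (2/3 : ℝ) =
      (C0 + 1) * (256 * (r / d)) ^ (2/3 : ℝ) := by
    rw [Real.mul_rpow (by norm_num) hq.le]
    ring
  rw [hRHS]
  by_cases h256 : 256 * r ≤ d
  · obtain ⟨s1, s2, s3, s4⟩ := sizes hδ hδr h256
    obtain ⟨b1, b2, b3, b4⟩ := dom_boxC hn (by linarith) hball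
    have hsub : blk (ctc (1 / n) z) ⌊d / (8 * (1 / (n : ℝ)))⌋₊ ⊆ RE 0 n 0 n :=
      RE_subset b1.le b2.le b3.le b4.le
    have hsub1 : ∀ k : ℕ, k ≤ ⌊d / (8 * (1 / (n : ℝ)))⌋₊ →
        blk (ctc (1 / n) z) k ⊆ RE 0 n 0 n := by
      intro k hk
      refine (RE_subset ?_ ?_ ?_ ?_).trans hsub <;> omega
    have h1 := hU' (ctc (1 / n) z) (⌈r / (1 / (n : ℝ))⌉₊ + 3 + 2)
      (⌊d / (8 * (1 / (n : ℝ)))⌋₊ - 2) (by omega) s2 (RE 0 n 0 n) (hsub1 _ (by omega))
    have hmono : Plain.prob n (fun F => γ n F ∈ EvO z r (d / 2) ζ) ≤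
        PQ (1/2) (RE 0 n 0 n) (fun F =>
          A3v (ctc (1 / n) z) (⌈r / (1 / (n : ℝ))⌉₊ + 3 + 2)
            (⌊d / (8 * (1 / (n : ℝ)))⌋₊ - 2) ↑F) := by
      refine Plain.prob_le_of_pr ?_
      intro F hF hE
      exact detO hn hδr h256 hζ hball hF (hT.1 n F hn hF).1 (hT.2 n F hn hF) hE
    have hpow : (((⌈r / (1 / (n : ℝ))⌉₊ + 3 + 2 : ℕ) : ℝ) /
        ((⌊d / (8 * (1 / (n : ℝ)))⌋₊ - 2 : ℕ) : ℝ)) ^ (2/3 : ℝ) ≤
        (256 * (r / d)) ^ (2/3 : ℝ) :=
      Real.rpow_le_rpow (by positivity) s4 (by norm_num)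
    have hx0 : 0 ≤ (256 * (r / d)) ^ (2/3 : ℝ) := by positivity
    have h3 := mul_le_mul_of_nonneg_left hpow hC0.le
    have h5 := hmono.trans (h1.trans h3)
    refine h5.trans ?_
    nlinarith
  · push Not at h256
    have h1 : Plain.prob n (fun F => γ n F ∈ EvO z r (d / 2) ζ) ≤ 1 := by
      rw [Plain.prob_eq]
      exact Pr_le_one okh _ _
    refine h1.trans ?_
    have h2 : 1 ≤ 256 * (r / d) := by
      rw [← mul_div_assoc, le_div_iff₀ hd0]
      linarith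
    have h3 : 1 ≤ (256 * (r / d)) ^ (2/3 : ℝ) := Real.one_le_rpow h2 (by norm_num)
    nlinarith

/-- the bound for the limits -/
theorem lim_leO (hU : U3) {sel : (n : ℕ) → Finset Plain.Edge → ℤ × ℤ}
    {γ : (n : ℕ) → Finset Plain.Edge → Curve} (hT : Tr sel γ) :
    ∃ C : ℝ, 0 < C ∧ ∀ (k : ℕ → ℕ), Tendsto k atTop atTop → ∀ μ : ProbabilityMeasure Curve,
      Tendsto (fun i => lawOf (k i) (γ (k i))) atTop (𝓝 μ) → ∀ (z : ℂ) (r d : ℝ), 0 < r → r ≤ d →
      Metric.ball z d ⊆ Sq → (μ : Measure Curve) (EvU z r (d / 2)) ≤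
          ENNReal.ofReal (C * (r / d) ^ (2/3 : ℝ)) := by
  obtain ⟨C, hC, hP⟩ := prob_leO hU hT
  refine ⟨C, hC, fun k hk μ hμ z r d hr hrd hb => ?_⟩
  unfold EvU
  rw [(EvU_mono z r (d / 2)).measure_iUnion]
  refine iSup_le fun m => ?_
  refine (ProbabilityMeasure.le_liminf_measure_open_of_tendsto hμ (EvO_open _ _ _ _)).trans ?_
  refine liminf_le_of_frequently_le (Eventually.frequently ?_)
  have hm : (0:ℝ) < 1 / ((m : ℝ) + 1) := by positivity
  obtain ⟨n0, hn0⟩ := exists_nat_gt (max (1 / r) (4 / (1 / ((m : ℝ) + 1))))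
  rw [max_lt_iff] at hn0
  have hev : ∀ᶠ i in atTop, max n0 1 ≤ k i := tendsto_atTop.mp hk _
  filter_upwards [hev] with i hi
  rw [max_le_iff] at hi
  have hki : 0 < k i := hi.2
  have hki' : (0:ℝ) < k i := by exact_mod_cast hki
  have h6 : (n0 : ℝ) ≤ k i := by exact_mod_cast hi.1
  refine hP z r d _ (k i) hr hrd hb hki ?_ ?_
  · have h7 := hn0.1
    rw [div_lt_iff₀ hr] at h7
    rw [div_le_iff₀ hki']
    nlinarith
  · have h7 := hn0.2
    rw [div_lt_iff₀ hm] at h7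
    rw [div_le_iff₀ hki']
    nlinarith

/-! ### Covering -/

/-- the outer boundary, if the diameter is larger than `d` -/
def SO (d : ℝ) (c : Curve) : Set ℂ :=
  {w | w ∈ oB (Set.range c.path) ∧ d < Metric.diam (Set.range c.path)}

open Classical in
/-- the event which belongs to a covering set -/
noncomputable def HO (D : Set ℂ) (d N : ℝ) (a b : ℤ) : Set Curve :=
  if h : (H934F.t10_sq N a b ∩ H934F.t10_A D d).Nonempty then EvU h.some (2 / N) (d / 2) else ∅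

theorem HO_open (D : Set ℂ) (d N : ℝ) (a b : ℤ) : IsOpen (HO D d N a b) := by
  unfold HO
  split_ifs
  · exact EvU_open _ _ _
  · exact isOpen_empty

theorem HO_of {D : Set ℂ} {d N : ℝ} (hd : 0 < d) {a b : ℤ} {p : Curve}
    {A : Set ℂ} (h : ((SO d p ∩ A) ∩ H934F.t10_U D d N a b).Nonempty) :
    p ∈ HO D d N a b := by
  obtain ⟨w, ⟨⟨hw1, hw3⟩, _⟩, hw2⟩ := h
  unfold H934F.t10_U at hw2
  unfold HO
  split_ifs at hw2 ⊢ with h
  · rw [Metric.mem_ball] at hw2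
    exact EvU_of hw1 hw2 (by linarith) (by linarith)
  · exact absurd hw2 (Set.notMem_empty _)

/-- the limit of the covering sums -/
theorem lim0 (M : ℝ) (C d t : ℝ) (hd : 0 < d) (ht : 4 / 3 < t) (m0 : ℕ) (hm0 : 1 ≤ m0) :
    Tendsto (fun m : ℕ => (2 * M * ((m + m0 : ℕ) : ℝ)) ^ 2 * ((4 / ((m + m0 : ℕ) : ℝ)) ^ t *
      (C * ((2 / ((m + m0 : ℕ) : ℝ)) / d) ^ (2 / 3 : ℝ)))) atTop (𝓝 0) := by
  have h1 : Tendsto (fun m : ℕ => ((m + m0 : ℕ) : ℝ)) atTop atTop :=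
    tendsto_natCast_atTop_atTop.comp (tendsto_add_atTop_nat m0)
  have h2 : Tendsto (fun x : ℝ => x ^ (-(t - 4 / 3))) atTop (𝓝 0) :=
    tendsto_rpow_neg_atTop (by linarith)
  have h3 := (h2.comp h1).const_mul ((2 * M) ^ 2 * (4 ^ t * (C * (2 / d) ^ (2 / 3 : ℝ))))
  rw [mul_zero] at h3
  refine h3.congr ?_
  intro m
  have hpos : (0 : ℝ) < ((m + m0 : ℕ) : ℝ) := by
    have : 0 < m + m0 := by omega
    exact_mod_cast this
  set x : ℝ := ((m + m0 : ℕ) : ℝ) with hx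
  simp only [Function.comp]
  rw [← hx]
  have e1 : (4 / x) ^ t = 4 ^ t * x ^ (-t) := by
    rw [Real.div_rpow (by norm_num) hpos.le, Real.rpow_neg hpos.le]
    ring
  have e2 : ((2 / x) / d) ^ (2 / 3 : ℝ) = (2 / d) ^ (2 / 3 : ℝ) * x ^ (-(2 / 3) : ℝ) := by
    have : (2 / x) / d = (2 / d) / x := by
      field_simp
    rw [this, Real.div_rpow (by positivity) hpos.le, Real.rpow_neg hpos.le]
    ring
  have e3 : x ^ (-(t - 4 / 3)) = x ^ (2 : ℝ) * (x ^ (-t) * x ^ (-(2 / 3) : ℝ)) := by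
    rw [← Real.rpow_add hpos, ← Real.rpow_add hpos]
    congr 1
    ring
  rw [e1, e2, e3, Real.rpow_two]
  ring

/-- one scale -/
theorem one_scaleO {D : Set ℂ} {M : ℕ} (hM : ∀ z ∈ D, |z.re| < M ∧ |z.im| < M) {C d : ℝ}
    (hC : 0 < C) (hd : 0 < d) {μ : ProbabilityMeasure Curve}
    (hp : ∀ (z : ℂ) (r : ℝ), 0 < r → r ≤ d → Metric.ball z d ⊆ D →
      (μ : Measure Curve) (EvU z r (d / 2)) ≤ ENNReal.ofReal (C * (r / d) ^ (2 / 3 : ℝ))) {t : ℝ}
    (ht : 4 / 3 < t) :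
    ∀ᵐ p ∂(μ : Measure Curve), dimH (SO d p ∩ H934F.t10_A D d) ≤ ENNReal.ofReal t := by
  obtain ⟨m1, hm1⟩ := exists_nat_gt (4 / d)
  set m0 : ℕ := m1 + 1 with hm0
  have hN : ∀ m : ℕ, (0 : ℝ) < ((m + m0 : ℕ) : ℝ) := by
    intro m
    have : 0 < m + m0 := by omega
    exact_mod_cast this
  have hNd : ∀ m : ℕ, 2 / ((m + m0 : ℕ) : ℝ) ≤ d / 2 := by
    intro m
    rw [div_le_iff₀ (hN m)]
    rw [div_lt_iff₀ hd] at hm1
    have : (m1 : ℝ) ≤ ((m + m0 : ℕ) : ℝ) := by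
      have : m1 ≤ m + m0 := by omega
      exact_mod_cast this
    nlinarith
  have hsub : H934F.t10_A D d ⊆ D := fun z hz => hz (Metric.mem_ball_self hd)
  have hμ : Tendsto (fun _ : ℕ => μ) atTop (𝓝 μ) := tendsto_const_nhds
  refine upperG (by linarith) hμ (fun p => SO d p ∩ H934F.t10_A D d)
    (ι := fun m => Fin (2 * M * (m + m0)) × Fin (2 * M * (m + m0)))
    (fun m i => H934F.t10_U D d ((m + m0 : ℕ) : ℝ) ((i.1 : ℕ) - (M * (m + m0) : ℕ) : ℤ)
      ((i.2 : ℕ) - (M * (m + m0) : ℕ) : ℤ))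
    (fun m i => HO D d ((m + m0 : ℕ) : ℝ) ((i.1 : ℕ) - (M * (m + m0) : ℕ) : ℤ)
      ((i.2 : ℕ) - (M * (m + m0) : ℕ) : ℤ))
    (fun m i => HO_open _ _ _ _ _) (fun m i p h => HO_of hd h)
    (fun m => ENNReal.ofReal (4 / ((m + m0 : ℕ) : ℝ))) ?_
    (fun m i => H934F.t10_U_ediam _ _ _ _ _)
    ?_ (fun m _ => ENNReal.ofReal (C * ((2 / ((m + m0 : ℕ) : ℝ)) / d) ^ (2 / 3 : ℝ))) ?_ ?_
  · -- the radii tend to zero
    have h1 : Tendsto (fun m : ℕ => ((m + m0 : ℕ) : ℝ)) atTop atTop :=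
      tendsto_natCast_atTop_atTop.comp (tendsto_add_atTop_nat m0)
    have h2 : Tendsto (fun m : ℕ => 4 / ((m + m0 : ℕ) : ℝ)) atTop (𝓝 0) :=
      h1.const_div_atTop 4
    have h3 := ENNReal.tendsto_ofReal h2
    rwa [ENNReal.ofReal_zero] at h3
  · -- covering
    rintro m p z ⟨_, hz⟩
    obtain ⟨h1, h2⟩ := hM z (hsub hz)
    have hb : ∀ y : ℝ, |y| < M → -((M * (m + m0) : ℕ) : ℤ) ≤ ⌊((m + m0 : ℕ) : ℝ) * y⌋ ∧
        ⌊((m + m0 : ℕ) : ℝ) * y⌋ < ((M * (m + m0) : ℕ) : ℤ) := by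
      intro y hy
      rw [abs_lt] at hy
      have hn := hN m
      constructor
      · rw [Int.le_floor]
        push_cast at hn ⊢
        nlinarith
      · rw [Int.floor_lt]
        push_cast at hn ⊢
        nlinarith
    obtain ⟨h3, h4⟩ := hb _ h1
    obtain ⟨h5, h6⟩ := hb _ h2
    refine Set.mem_iUnion.mpr ⟨(⟨(⌊((m + m0 : ℕ) : ℝ) * z.re⌋ + (M * (m + m0) : ℕ)).toNat, ?_⟩,
      ⟨(⌊((m + m0 : ℕ) : ℝ) * z.im⌋ + (M * (m + m0) : ℕ)).toNat, ?_⟩), ?_⟩
    · rw [Int.toNat_lt (by omega)]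
      have : ((2 * M * (m + m0) : ℕ) : ℤ) = 2 * ((M * (m + m0) : ℕ) : ℤ) := by
        push_cast; ring
      omega
    · rw [Int.toNat_lt (by omega)]
      have : ((2 * M * (m + m0) : ℕ) : ℤ) = 2 * ((M * (m + m0) : ℕ) : ℤ) := by
        push_cast; ring
      omega
    · have hcov := H934F.t10_U_cover (N := ((m + m0 : ℕ) : ℝ)) (hN m) hz
      simp only
      rw [Int.toNat_of_nonneg (by omega), Int.toNat_of_nonneg (by omega)]
      rw [add_sub_cancel_right, add_sub_cancel_right]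
      exact hcov
  · -- probabilities
    intro m i
    refine Eventually.frequently (Eventually.of_forall fun _ => ?_)
    unfold HO
    split_ifs with h
    · exact hp h.some (2 / ((m + m0 : ℕ) : ℝ)) (div_pos two_pos (hN m))
        ((hNd m).trans (by linarith)) h.some_mem.2
    · rw [measure_empty]
      exact zero_le
  · -- the sums tend to zero
    have hl := ENNReal.tendsto_ofReal (lim0 M C d t hd ht m0 (by omega))
    rw [ENNReal.ofReal_zero] at hl
    refine tendsto_of_tendsto_of_tendsto_of_le_of_le tendsto_const_nhds hl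
      (fun m => zero_le) (fun m => ?_)
    have hn := hN m
    have ht0 : 0 ≤ t := by linarith
    have h4 : 0 ≤ (4 : ℝ) / ((m + m0 : ℕ) : ℝ) := by positivity
    calc ∑ i : Fin (2 * M * (m + m0)) × Fin (2 * M * (m + m0)),
          Metric.ediam (H934F.t10_U D d ((m + m0 : ℕ) : ℝ) ((i.1 : ℕ) - (M * (m + m0) : ℕ) : ℤ)
            ((i.2 : ℕ) - (M * (m + m0) : ℕ) : ℤ)) ^ t *
            ENNReal.ofReal (C * ((2 / ((m + m0 : ℕ) : ℝ)) / d) ^ (2 / 3 : ℝ))
        ≤ ∑ _i : Fin (2 * M * (m + m0)) × Fin (2 * M * (m + m0)),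
          ENNReal.ofReal ((4 / ((m + m0 : ℕ) : ℝ)) ^ t *
            (C * ((2 / ((m + m0 : ℕ) : ℝ)) / d) ^ (2 / 3 : ℝ))) := by
          refine Finset.sum_le_sum fun i _ => ?_
          have e5 : ENNReal.ofReal ((4 / ((m + m0 : ℕ) : ℝ)) ^ t *
              (C * ((2 / ((m + m0 : ℕ) : ℝ)) / d) ^ (2 / 3 : ℝ))) =
              ENNReal.ofReal (4 / ((m + m0 : ℕ) : ℝ)) ^ t *
                ENNReal.ofReal (C * ((2 / ((m + m0 : ℕ) : ℝ)) / d) ^ (2 / 3 : ℝ)) := by
            rw [ENNReal.ofReal_mul (by positivity), ENNReal.ofReal_rpow_of_nonneg h4 ht0]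
          rw [e5]
          gcongr
          exact H934F.t10_U_ediam _ _ _ _ _
      _ ≤ ENNReal.ofReal ((2 * M * ((m + m0 : ℕ) : ℝ)) ^ 2 * ((4 / ((m + m0 : ℕ) : ℝ)) ^ t *
            (C * ((2 / ((m + m0 : ℕ) : ℝ)) / d) ^ (2 / 3 : ℝ)))) := by
          have e : (2 * (M : ℝ) * ((m + m0 : ℕ) : ℝ)) ^ 2 =
              ((2 * M * (m + m0) * (2 * M * (m + m0)) : ℕ) : ℝ) := by
            push_cast
            ring
          rw [Finset.sum_const, Finset.card_univ, Fintype.card_prod, Fintype.card_fin,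
            nsmul_eq_mul, e, ENNReal.ofReal_mul (Nat.cast_nonneg _), ENNReal.ofReal_natCast]

/-- **the outer boundary of the limits has dimension at most `4/3`** -/
theorem ul3 (hU : U3) (hHB : PD_HB) {sel : (n : ℕ) → Finset Plain.Edge → ℤ × ℤ}
    {γ : (n : ℕ) → Finset Plain.Edge → Curve} (hT : Tr sel γ) {k : ℕ → ℕ}
    (hk : Tendsto k atTop atTop) {μ : ProbabilityMeasure Curve}
    (hμ : Tendsto (fun i => lawOf (k i) (γ (k i))) atTop (𝓝 μ)) :
    ∀ᵐ c : Curve ∂(μ : Measure Curve), dimH (oB (Set.range c.path)) ≤ 4/3 := by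
  obtain ⟨C, hC, hP⟩ := lim_leO hU hT
  set dn : ℕ → ℝ := fun n => 1 / ((n : ℝ) + 1) with hdn
  have hdn0 : ∀ n, 0 < dn n := fun n => by simp only [hdn]; positivity
  have e43 : ENNReal.ofReal (4 / 3) = 4 / 3 := by
    rw [ENNReal.ofReal_div_of_pos (by norm_num)]
    norm_num
  have h1 : ∀ n j : ℕ, ∀ᵐ p ∂(μ : Measure Curve),
      dimH (SO (dn n) p ∩ H934F.t10_A Sq (dn n)) ≤
        ENNReal.ofReal (4 / 3 + 1 / ((j : ℝ) + 1)) := by
    intro n j
    have hj : 0 < 1 / ((j : ℝ) + 1) := by positivity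
    exact one_scaleO Sq_bdd hC (hdn0 n) (fun z r hr hrd hb => hP k hk μ hμ z r _ hr hrd hb)
      (by linarith)
  have h2 : ∀ᵐ p ∂(μ : Measure Curve), ∀ n j : ℕ,
      dimH (SO (dn n) p ∩ H934F.t10_A Sq (dn n)) ≤
        ENNReal.ofReal (4 / 3 + 1 / ((j : ℝ) + 1)) := by
    rw [ae_all_iff]
    intro n
    rw [ae_all_iff]
    intro j
    exact h1 n j
  have h3 : ∀ᵐ c : Curve ∂(μ : Measure Curve), ∀ j : ℕ, Set.range c.path ⊆ Sqc ∧
      dimH {z | z ∈ Set.range c.path ∧ z ∈ Sqc \ Sq ∧ ∃ u, 1 / ((j:ℝ) + 1) ≤ dist (c.path u) z} ≤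
        ENNReal.ofReal (2/3) := by
    rw [ae_all_iff]
    intro j
    exact Pool.Agent.W597.PDBL.bl hHB sel γ hT k hk μ hμ _ (by positivity)
  filter_upwards [h2, h3] with p hp hb
  have hcl := range_closed p.path
  have hcomp : IsCompact (Set.range p.path) := isCompact_range p.path.continuous
  by_cases hd0 : 0 < Metric.diam (Set.range p.path)
  · have hsub : oB (Set.range p.path) ⊆ (⋃ n : ℕ, SO (dn n) p ∩ H934F.t10_A Sq (dn n)) ∪
        ⋃ j : ℕ, {z | z ∈ Set.range p.path ∧ z ∈ Sqc \ Sq ∧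
          ∃ u, 1 / ((j:ℝ) + 1) ≤ dist (p.path u) z} := by
      intro z hz
      have hzr := oB_sub hcl hz
      by_cases hzD : z ∈ Sq
      · left
        obtain ⟨ε, hε, hbb⟩ := Metric.isOpen_iff.mp Sq_open z hzD
        obtain ⟨n, hn⟩ := exists_nat_one_div_lt (lt_min hε hd0)
        rw [lt_min_iff] at hn
        exact Set.mem_iUnion.mpr ⟨n, ⟨hz, hn.2⟩,
          (Metric.ball_subset_ball hn.1.le).trans hbb⟩
      · right
        have hfar : ∃ u, p.path u ≠ z := by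
          by_contra hcon
          push Not at hcon
          have : Metric.diam (Set.range p.path) ≤ 0 := by
            apply Metric.diam_le_of_forall_dist_le le_rfl
            rintro _ ⟨a, rfl⟩ _ ⟨b, rfl⟩
            rw [hcon a, hcon b, dist_self]
          linarith
        obtain ⟨u, hu⟩ := hfar
        obtain ⟨j, hj⟩ := exists_nat_one_div_lt (dist_pos.2 hu)
        exact Set.mem_iUnion.mpr ⟨j, hzr, ⟨(hb 0).1 hzr, hzD⟩, u, hj.le⟩
    refine (dimH_mono hsub).trans ?_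
    rw [dimH_union, dimH_iUnion, dimH_iUnion]
    refine max_le (iSup_le fun n => ?_) (iSup_le fun j => (hb j).2.trans ?_)
    · have hlim : Tendsto (fun j : ℕ => ENNReal.ofReal (4 / 3 + 1 / ((j : ℝ) + 1))) atTop
          (𝓝 (ENNReal.ofReal (4 / 3 + 0))) :=
        ENNReal.tendsto_ofReal (tendsto_const_nhds.add tendsto_one_div_add_atTop_nhds_zero_nat)
      rw [add_zero, e43] at hlim
      exact ge_of_tendsto' hlim (fun j => hp n j)
    · rw [← e43]
      exact ENNReal.ofReal_le_ofReal (by norm_num)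
  · have hsub : (oB (Set.range p.path)).Subsingleton := by
      intro x hx y hy
      have h4 := Metric.dist_le_diam_of_mem hcomp.isBounded (oB_sub hcl hx) (oB_sub hcl hy)
      exact dist_le_zero.1 (h4.trans (not_lt.1 hd0))
    rw [hsub.dimH_zero]
    exact zero_le

end Pool.Agent.W2helper75.OB
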