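import Pool.Agent.W2helper75.OB.One
import Pool.Agent.W801.AV.T_FRE
import Pool.Agent.W801.AV.T_FIR
import Pool.Agent.W801.AV.T_FIN
import Pool.Agent.W801.AV.T_ONU
import Pool.Agent.W801.AV.T_SML
import Pool.Agent.Y989.FR.T_GOOD3

/-!
# Many accessible vertices with thick paths, with small energy
-/

set_option autoImplicit false

namespace Pool.Agent.W2helper75.OB

open H974 H973 H12S H934E Finset H389NS H984P H984N H342P
open Pool.Agent.W801.AV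
open Pool.Agent.Y989.FR (S_ACC S_THK)
open Pool.Agent.Y989.FR.GOOD3 (t5_one t5_max_nonneg t5_max_pos)

/-- `w` has the event `Ev`, and the clusters disjoint from its cluster are small. -/
def Ag (M B n : ℕ) (w : ℤ × ℤ) (F : Finset Edg) : Prop :=
  Ev M B n w F ∧ Sml n (Plain.cluster F w) F

open Classical in
/-- the vertices of the centre with the event `Ag` -/
noncomputable def Vg (M B n : ℕ) (F : Finset Edg) : Finset (ℤ × ℤ) :=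
  (Ctr n).filter (fun w => Ag M B n w F)

/-- their energy -/
noncomputable def En (t : ℝ) (M B n : ℕ) (F : Finset Edg) : ℝ :=
  ∑ v ∈ Vg M B n F, ∑ w ∈ Vg M B n F, ((max (sd v w) 1 : ℤ) : ℝ) ^ (-t)

/-- the good event -/
def Gd (c0 E0 t : ℝ) (M B n : ℕ) (F : Finset Edg) : Prop :=
  c0 * (n : ℝ) ^ (4 / 3 : ℝ) ≤ ((Vg M B n F).card : ℝ) ∧
    En t M B n F ≤ E0 * (n : ℝ) ^ (8 / 3 - t)

theorem fre (M B n : ℕ) (w : ℤ × ℤ) (hw : w ∈ Plain.box n) :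
    Pr (fun _ => (1 / 2 : ℝ)) (RE 0 n 0 n) (Ev M B n w) *
        Pr (fun _ => (1 / 2 : ℝ)) (RE 0 n 0 n) (Sml n ∅) ≤
      Pr (fun _ => (1 / 2 : ℝ)) (RE 0 n 0 n) (Ag M B n w) := by
  have h := TFRE.key TFIR.okh (RE 0 n 0 n) (Plain.box n) (TFRE.RE_box n) w hw
    (fun a b => 16 * Plain.sqDist a b < (n : ℤ) ^ 2)
    (fun W => TFRE.Eg n w W ∧ Thk M B (2 * n) w W)
  have e1 : Pr (fun _ => (1 / 2 : ℝ)) (RE 0 n 0 n) (Ev M B n w) =
      Pr (fun _ => (1 / 2 : ℝ)) (RE 0 n 0 n)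
        (fun F => TFRE.Eg n w (TFRE.cl F w) ∧ Thk M B (2 * n) w (TFRE.cl F w)) := by
    apply Pr_congr
    intro F _
    unfold Ev
    rw [TFRE.E_eq, TFRE.cluster_eq]
  rw [e1, Pr_congr (fun F _ => TFRE.Sml_eq n ∅ F)]
  have h2 : Pr (fun _ => (1 / 2 : ℝ)) (RE 0 n 0 n) (Ag M B n w) =
      Pr (fun _ => (1 / 2 : ℝ)) (RE 0 n 0 n)
        (fun F => (TFRE.Eg n w (TFRE.cl F w) ∧ Thk M B (2 * n) w (TFRE.cl F w)) ∧
          TFRE.SM (Plain.box n) (fun a b => 16 * Plain.sqDist a b < (n : ℤ) ^ 2)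
          (TFRE.cl F w) F) := by
    apply Pr_congr
    intro F _
    unfold Ag Ev
    rw [TFRE.E_eq, TFRE.Sml_eq, TFRE.cluster_eq]
  rw [h2]
  exact h

/-- first moment -/
theorem fir (hACC : S_ACC) (hTHK : S_THK) (hSML : S_SML) : ∃ (M B n0 : ℕ) (c : ℝ), 16 ≤ M ∧
    1 ≤ B ∧ 80 ≤ n0 ∧ 0 < c ∧ ∀ n : ℕ, n0 ≤ n → c * (n : ℝ) ^ (4 / 3 : ℝ) ≤
      ∑ w ∈ Ctr n, Pr (fun _ => (1 / 2 : ℝ)) (RE 0 n 0 n) (Ag M B n w) := by
  obtain ⟨M, B, n0, c0, hM, hB, -, hc0, hone⟩ := one hACC hTHK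
  obtain ⟨q, n1, hq, hsml⟩ := hSML
  refine ⟨M, B, max (max n0 n1) 80, c0 / 14400 * q, hM, hB, le_max_right _ _, by positivity, ?_⟩
  intro n hn
  have hn0 : n0 ≤ n := ((le_max_left _ _).trans (le_max_left _ _)).trans hn
  have hn1 : n1 ≤ n := ((le_max_right _ _).trans (le_max_left _ _)).trans hn
  have hn2 : 80 ≤ n := (le_max_right _ _).trans hn
  have h00 : (0 : ℤ × ℤ) ∈ TFIR.DD := by
    unfold TFIR.DD
    simp
  have hS := TFIR.gen n hn2 (fun w => Pr (fun _ => (1 / 2 : ℝ)) (RE 0 n 0 n) (Ev M B n w))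
    (fun w => Pr_nonneg TFIR.okh _ _) (c0 * (n : ℝ) ^ (-(2 / 3 : ℝ))) (Ctr n) (TFIR.mem_Ctr n)
    (fun c hc => by
      have h1 := Finset.single_le_sum
        (f := fun δ : ℤ × ℤ => Pr (fun _ => (1 / 2 : ℝ)) (RE 0 n 0 n) (Ev M B n (c + δ)))
        (fun i _ => Pr_nonneg TFIR.okh _ _) h00
      simp only [add_zero] at h1
      exact (hone n hn0 c hc).trans h1)
  have hN := TFIR.num n hn2 c0 _ hc0 hS
  calc c0 / 14400 * q * (n : ℝ) ^ (4 / 3 : ℝ) = (c0 / 14400 * (n : ℝ) ^ (4 / 3 : ℝ)) * q := by ring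
    _ ≤ (∑ w ∈ Ctr n, Pr (fun _ => (1 / 2 : ℝ)) (RE 0 n 0 n) (Ev M B n w)) * q :=
        mul_le_mul_of_nonneg_right hN hq.le
    _ = ∑ w ∈ Ctr n, Pr (fun _ => (1 / 2 : ℝ)) (RE 0 n 0 n) (Ev M B n w) * q := by
        rw [Finset.sum_mul]
    _ ≤ ∑ w ∈ Ctr n, Pr (fun _ => (1 / 2 : ℝ)) (RE 0 n 0 n) (Ag M B n w) := by
        apply Finset.sum_le_sum
        intro w hw
        have hb : w ∈ Plain.box n := (Finset.mem_filter.mp hw).1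
        exact le_trans (mul_le_mul_of_nonneg_left (hsml n hn1) (Pr_nonneg TFIR.okh _ _))
          (fre M B n w hb)

/-! ### Second moments -/

/-- two-point bound, all distances -/
theorem two (hTWO : S_TWO) (hONU : S_ONU) : ∃ C : ℝ, 0 < C ∧ ∀ (M B n : ℕ) (v w : ℤ × ℤ),
    16 ≤ n → v ∈ Ctr n → w ∈ Ctr n →
    Pr (fun _ => (1 / 2 : ℝ)) (RE 0 n 0 n) (fun F => Ag M B n v F ∧ Ag M B n w F) ≤
      C * ((max (sd v w) 1 : ℤ) : ℝ) ^ (-(2 / 3) : ℝ) * (n : ℝ) ^ (-(2 / 3) : ℝ) := by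
  obtain ⟨C1, hC1, h1⟩ := hTWO
  obtain ⟨C2, hC2, h2⟩ := hONU
  refine ⟨C1 + C2, by positivity, ?_⟩
  intro M B n v w hn hv hw
  have hn0 : (0 : ℝ) ≤ n := Nat.cast_nonneg n
  have hsd : 0 ≤ sd v w := le_max_of_le_left (abs_nonneg _)
  have hnn : 0 ≤ (n : ℝ) ^ (-(2 / 3) : ℝ) := Real.rpow_nonneg hn0 _
  by_cases h0 : sd v w = 0
  · rw [h0, max_eq_right (by norm_num), Int.cast_one, Real.one_rpow, mul_one]
    have h3 := h2 n v hn hv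
    refine (Pr_mono TFIR.okh (B := E n v) ?_).trans (h3.trans ?_)
    · rintro F _ ⟨k, -⟩
      exact k.1.1
    · nlinarith
  · have h3 : 1 ≤ sd v w := by omega
    obtain ⟨r, hr⟩ : ∃ r : ℕ, (r : ℤ) = sd v w := ⟨(sd v w).toNat, Int.toNat_of_nonneg hsd⟩
    have h4 := h1 n r v w hn hv hw (by omega) hr
    have h5 : ((max (sd v w) 1 : ℤ) : ℝ) = (r : ℝ) := by
      rw [max_eq_left h3, ← hr, Int.cast_natCast]
    rw [h5]
    refine (Pr_mono TFIR.okh ?_).trans (h4.trans ?_)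
    · rintro F _ ⟨k, k'⟩
      exact ⟨k.1.1, k'.1.1⟩
    · have h6 : 0 ≤ (r : ℝ) ^ (-(2 / 3) : ℝ) := Real.rpow_nonneg (Nat.cast_nonneg _) _
      have h7 : 0 ≤ (r : ℝ) ^ (-(2 / 3) : ℝ) * (n : ℝ) ^ (-(2 / 3) : ℝ) := mul_nonneg h6 hnn
      nlinarith

theorem ctr_box {n : ℕ} {v : ℤ × ℤ} (hv : v ∈ Ctr n) :
    (0 ≤ v.1 ∧ v.1 ≤ n) ∧ (0 ≤ v.2 ∧ v.2 ≤ n) := by
  unfold Ctr at hv
  obtain ⟨h1, -, -⟩ := Finset.mem_filter.1 hv
  unfold Plain.box at h1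
  rw [Finset.mem_product, Finset.mem_Icc, Finset.mem_Icc] at h1
  exact h1

/-- two-dimensional sum -/
theorem two_sum {a : ℝ} (ha : 0 ≤ a) (ha1 : a < 2) (n : ℕ) (hn : 1 ≤ n) (v : Vtx)
    (hv : v ∈ Ctr n) :
    ∑ w ∈ Ctr n, ((max (sd v w) 1 : ℤ) : ℝ) ^ (-a) ≤
      (1 + 4 / (1 - a / 2)) ^ 2 * (n : ℝ) ^ (2 - a) := by
  have hh1 : (1:ℝ) ≤ n := by exact_mod_cast hn
  have hh0 : (0:ℝ) < n := by linarith
  have hv' := ctr_box hv
  have b0 : 0 ≤ a / 2 := by linarith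
  have b1 : a / 2 < 1 := by linarith
  have s1 := t5_one b0 b1 (n : ℤ) (by omega) v.1 (Finset.Icc (0 : ℤ) n) (by
    intro l hl
    rw [Finset.mem_Icc] at hl
    rw [abs_le]
    omega)
  have s2 := t5_one b0 b1 (n : ℤ) (by omega) v.2 (Finset.Icc (0 : ℤ) n) (by
    intro l hl
    rw [Finset.mem_Icc] at hl
    rw [abs_le]
    omega)
  rw [Int.cast_natCast] at s1 s2
  have key : ∀ w : Vtx, ((max (sd v w) 1 : ℤ) : ℝ) ^ (-a) ≤
      ((max |v.1 - w.1| 1 : ℤ) : ℝ) ^ (-(a / 2)) * ((max |v.2 - w.2| 1 : ℤ) : ℝ) ^ (-(a / 2)) := by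
    intro w
    have m1 : ((max |v.1 - w.1| 1 : ℤ) : ℝ) ≤ ((max (sd v w) 1 : ℤ) : ℝ) := by
      have : max |v.1 - w.1| 1 ≤ max (sd v w) 1 := max_le_max (le_max_left _ _) le_rfl
      exact_mod_cast this
    have m2 : ((max |v.2 - w.2| 1 : ℤ) : ℝ) ≤ ((max (sd v w) 1 : ℤ) : ℝ) := by
      have : max |v.2 - w.2| 1 ≤ max (sd v w) 1 := max_le_max (le_max_right _ _) le_rfl
      exact_mod_cast this
    have e : ((max (sd v w) 1 : ℤ) : ℝ) ^ (-a) =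
        ((max (sd v w) 1 : ℤ) : ℝ) ^ (-(a / 2)) * ((max (sd v w) 1 : ℤ) : ℝ) ^ (-(a / 2)) := by
      rw [← Real.rpow_add (t5_max_pos _)]
      congr 1
      ring
    rw [e]
    exact mul_le_mul
      (Real.rpow_le_rpow_of_nonpos (t5_max_pos _) m1 (by linarith))
      (Real.rpow_le_rpow_of_nonpos (t5_max_pos _) m2 (by linarith))
      (Real.rpow_nonneg (t5_max_nonneg _) _) (Real.rpow_nonneg (t5_max_nonneg _) _)
  have h0 : 0 ≤ ∑ l ∈ Finset.Icc (0 : ℤ) n, ((max |v.2 - l| 1 : ℤ) : ℝ) ^ (-(a / 2)) :=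
    Finset.sum_nonneg (fun _ _ => Real.rpow_nonneg (t5_max_nonneg _) _)
  have hsub : Ctr n ⊆ Finset.Icc (0 : ℤ) n ×ˢ Finset.Icc (0 : ℤ) n := Finset.filter_subset _ _
  calc ∑ w ∈ Ctr n, ((max (sd v w) 1 : ℤ) : ℝ) ^ (-a)
      ≤ ∑ w ∈ Finset.Icc (0 : ℤ) n ×ˢ Finset.Icc (0 : ℤ) n, ((max (sd v w) 1 : ℤ) : ℝ) ^ (-a) :=
        Finset.sum_le_sum_of_subset_of_nonneg hsub
          (fun _ _ _ => Real.rpow_nonneg (t5_max_nonneg _) _)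
    _ ≤ ∑ w ∈ Finset.Icc (0 : ℤ) n ×ˢ Finset.Icc (0 : ℤ) n,
        ((max |v.1 - w.1| 1 : ℤ) : ℝ) ^ (-(a / 2)) * ((max |v.2 - w.2| 1 : ℤ) : ℝ) ^ (-(a / 2)) :=
        Finset.sum_le_sum (fun w _ => key w)
    _ = (∑ l ∈ Finset.Icc (0 : ℤ) n, ((max |v.1 - l| 1 : ℤ) : ℝ) ^ (-(a / 2))) *
        ∑ l ∈ Finset.Icc (0 : ℤ) n, ((max |v.2 - l| 1 : ℤ) : ℝ) ^ (-(a / 2)) := by
        rw [Finset.sum_product, Finset.sum_mul_sum]
    _ ≤ ((1 + 4 / (1 - a / 2)) * (n : ℝ) ^ (1 - a / 2)) *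
        ((1 + 4 / (1 - a / 2)) * (n : ℝ) ^ (1 - a / 2)) :=
        mul_le_mul s1 s2 h0 (h0.trans s2)
    _ = (1 + 4 / (1 - a / 2)) ^ 2 * ((n : ℝ) ^ (1 - a / 2) * (n : ℝ) ^ (1 - a / 2)) := by ring
    _ = _ := by
        rw [← Real.rpow_add hh0]
        congr 2
        ring

theorem ctr_card {n : ℕ} (hn : 1 ≤ n) : ((Ctr n).card : ℝ) ≤ 4 * (n : ℝ) ^ 2 := by
  have hn' : (1 : ℝ) ≤ n := by exact_mod_cast hn
  have c1 : (Ctr n).card ≤ (n + 1) * (n + 1) := by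
    have hsub : Ctr n ⊆ Finset.Icc (0 : ℤ) n ×ˢ Finset.Icc (0 : ℤ) n := Finset.filter_subset _ _
    have := Finset.card_le_card hsub
    rw [Finset.card_product, Int.card_Icc] at this
    simpa using this
  have c2 : ((Ctr n).card : ℝ) ≤ ((n : ℝ) + 1) * ((n : ℝ) + 1) := by exact_mod_cast c1
  nlinarith

theorem V_N (M B n : ℕ) (F : Finset Edg) :
    ((Vg M B n F).card : ℝ) = ∑ v ∈ Ctr n, ind (Ag M B n v F) := by
  classical
  unfold Vg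
  rw [Finset.card_filter]
  push_cast
  apply Finset.sum_congr rfl
  intro v _
  by_cases hv : Ag M B n v F
  · rw [if_pos hv, ind_of hv]
  · rw [if_neg hv, ind_not_of hv]

theorem En_N (t : ℝ) (M B n : ℕ) (F : Finset Edg) :
    En t M B n F = ∑ v ∈ Ctr n, ∑ w ∈ Ctr n,
      ((max (sd v w) 1 : ℤ) : ℝ) ^ (-t) * ind (Ag M B n v F ∧ Ag M B n w F) := by
  classical
  unfold En Vg
  rw [Finset.sum_filter]
  apply Finset.sum_congr rfl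
  intro v _
  by_cases hv : Ag M B n v F
  · rw [if_pos hv, Finset.sum_filter]
    apply Finset.sum_congr rfl
    intro w _
    by_cases hw : Ag M B n w F
    · rw [if_pos hw, ind_of ⟨hv, hw⟩, mul_one]
    · rw [if_neg hw, ind_not_of (fun h => hw h.2), mul_zero]
  · rw [if_neg hv]
    symm
    apply Finset.sum_eq_zero
    intro w _
    rw [ind_not_of (fun h => hv h.1), mul_zero]

theorem V_sq (M B n : ℕ) (F : Finset Edg) :
    ((Vg M B n F).card : ℝ) * ((Vg M B n F).card : ℝ) = En 0 M B n F := by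
  unfold En
  simp only [neg_zero, Real.rpow_zero, Finset.sum_const, nsmul_eq_mul, mul_one]

theorem En_nonneg (t : ℝ) (M B n : ℕ) (F : Finset Edg) : 0 ≤ En t M B n F :=
  Finset.sum_nonneg (fun _ _ => Finset.sum_nonneg
    (fun _ _ => Real.rpow_nonneg (t5_max_nonneg _) _))

/-- expectation of the energy -/
theorem en_le (hTWO : S_TWO) (hONU : S_ONU) {t : ℝ} (ht : 0 ≤ t) (ht1 : t < 4 / 3) :
    ∃ C : ℝ, 0 < C ∧ ∀ M B n : ℕ, 16 ≤ n →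
      H934E.EE (RE 0 n 0 n) (En t M B n) ≤ C * (n : ℝ) ^ (8 / 3 - t) := by
  obtain ⟨C, hC, hT⟩ := two hTWO hONU
  have hb : 0 < 1 - (t + 2 / 3) / 2 := by linarith
  refine ⟨4 * C * (1 + 4 / (1 - (t + 2 / 3) / 2)) ^ 2, by positivity, ?_⟩
  intro M B n hn
  have ha0 : (0:ℝ) < n := by
    have : 0 < n := by omega
    exact_mod_cast this
  have e1 : H934E.EE (RE 0 n 0 n) (En t M B n) = ∑ v ∈ Ctr n, ∑ w ∈ Ctr n,
      ((max (sd v w) 1 : ℤ) : ℝ) ^ (-t) *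
        Pr (fun _ => (1 / 2 : ℝ)) (RE 0 n 0 n) (fun F => Ag M B n v F ∧ Ag M B n w F) := by
    have e0 : H934E.EE (RE 0 n 0 n) (En t M B n) = H934E.EE (RE 0 n 0 n) (fun F => ∑ v ∈ Ctr n, ∑ w ∈ Ctr n,
      ((max (sd v w) 1 : ℤ) : ℝ) ^ (-t) * ind (Ag M B n v F ∧ Ag M B n w F)) := by
      congr 1
      funext F
      exact En_N t M B n F
    rw [e0]
    unfold H934E.EE
    rw [Ex_sum]
    apply Finset.sum_congr rfl
    intro v _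
    rw [Ex_sum]
    apply Finset.sum_congr rfl
    intro w _
    rw [Ex_mul_left]
    rfl
  rw [e1]
  have h2 : ∀ v ∈ Ctr n, ∑ w ∈ Ctr n, ((max (sd v w) 1 : ℤ) : ℝ) ^ (-t) *
        Pr (fun _ => (1 / 2 : ℝ)) (RE 0 n 0 n) (fun F => Ag M B n v F ∧ Ag M B n w F) ≤
      C * (n : ℝ) ^ (-(2 / 3) : ℝ) *
        ((1 + 4 / (1 - (t + 2 / 3) / 2)) ^ 2 * (n : ℝ) ^ (2 - (t + 2 / 3))) := by
    intro v hv
    have i1 := two_sum (a := t + 2 / 3) (by linarith) (by linarith) n (by omega) v hv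
    refine le_trans ?_ (mul_le_mul_of_nonneg_left i1
      (mul_nonneg hC.le (Real.rpow_nonneg ha0.le _)))
    rw [Finset.mul_sum]
    apply Finset.sum_le_sum
    intro w hw
    have i2 := hT M B n v w hn hv hw
    have e2 : ((max (sd v w) 1 : ℤ) : ℝ) ^ (-(t + 2 / 3)) =
        ((max (sd v w) 1 : ℤ) : ℝ) ^ (-t) * ((max (sd v w) 1 : ℤ) : ℝ) ^ (-(2 / 3) : ℝ) := by
      rw [← Real.rpow_add (t5_max_pos _)]
      congr 1
      ring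
    rw [e2]
    calc _ ≤ ((max (sd v w) 1 : ℤ) : ℝ) ^ (-t) *
          (C * ((max (sd v w) 1 : ℤ) : ℝ) ^ (-(2 / 3) : ℝ) * (n : ℝ) ^ (-(2 / 3) : ℝ)) :=
          mul_le_mul_of_nonneg_left i2 (Real.rpow_nonneg (t5_max_nonneg _) _)
      _ = _ := by ring
  refine (Finset.sum_le_sum h2).trans ?_
  rw [Finset.sum_const, nsmul_eq_mul]
  have e3 : (n : ℝ) ^ 2 * ((n : ℝ) ^ (-(2 / 3) : ℝ) * (n : ℝ) ^ (2 - (t + 2 / 3))) =
      (n : ℝ) ^ (8 / 3 - t) := by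
    rw [← Real.rpow_add ha0, ← Real.rpow_natCast, ← Real.rpow_add ha0]
    congr 1
    push_cast
    ring
  have h4 := ctr_card (n := n) (by omega)
  have h5 : 0 ≤ C * (n : ℝ) ^ (-(2 / 3) : ℝ) *
        ((1 + 4 / (1 - (t + 2 / 3) / 2)) ^ 2 * (n : ℝ) ^ (2 - (t + 2 / 3))) := by
    have := Real.rpow_nonneg ha0.le (-(2 / 3) : ℝ)
    have := Real.rpow_nonneg ha0.le (2 - (t + 2 / 3))
    positivity
  calc ((Ctr n).card : ℝ) * (C * (n : ℝ) ^ (-(2 / 3) : ℝ) *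
        ((1 + 4 / (1 - (t + 2 / 3) / 2)) ^ 2 * (n : ℝ) ^ (2 - (t + 2 / 3))))
      ≤ (4 * (n : ℝ) ^ 2) * (C * (n : ℝ) ^ (-(2 / 3) : ℝ) *
        ((1 + 4 / (1 - (t + 2 / 3) / 2)) ^ 2 * (n : ℝ) ^ (2 - (t + 2 / 3)))) :=
        mul_le_mul_of_nonneg_right h4 h5
    _ = 4 * C * (1 + 4 / (1 - (t + 2 / 3) / 2)) ^ 2 *
        ((n : ℝ) ^ 2 * ((n : ℝ) ^ (-(2 / 3) : ℝ) * (n : ℝ) ^ (2 - (t + 2 / 3)))) := by ring
    _ = _ := by rw [e3]

/-- the good event has a probability which is bounded below, uniformly in `t` -/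
theorem good (hACC : S_ACC) (hTHK : S_THK) (hSML : S_SML) (hTWO : S_TWO) (hONU : S_ONU) :
    ∃ (M B n0 : ℕ) (c0 p : ℝ), 16 ≤ M ∧ 1 ≤ B ∧ 80 ≤ n0 ∧ 0 < c0 ∧ 0 < p ∧ p ≤ 1 ∧
      ∀ t : ℝ, 0 < t → t < 4 / 3 → ∃ E0 : ℝ, 0 < E0 ∧ ∀ n : ℕ, n0 ≤ n →
        p ≤ Pr (fun _ => (1 / 2 : ℝ)) (RE 0 n 0 n) (Gd c0 E0 t M B n) := by
  obtain ⟨M, B, n0, A, hM, hB, hn0, hA0, hfir⟩ := fir hACC hTHK hSML
  obtain ⟨C0, hC0, hE0⟩ := en_le hTWO hONU (t := 0) le_rfl (by norm_num)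
  set p : ℝ := A ^ 2 / (4 * C0) / 2 with hp
  have hp0 : 0 < p := by positivity
  refine ⟨M, B, n0, A / 2, min p 1, hM, hB, hn0, by positivity, lt_min hp0 one_pos,
    min_le_right _ _, ?_⟩
  intro t ht ht1
  obtain ⟨Ct, hCt, hEt⟩ := en_le hTWO hONU (t := t) ht.le ht1
  refine ⟨Ct / p, by positivity, ?_⟩
  intro n hn
  refine (min_le_left _ _).trans ?_
  have hn16 : 16 ≤ n := by omega
  have hm0 : (0:ℝ) < n := by
    have : 0 < n := by omega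
    exact_mod_cast this
  have hU : 0 < (n : ℝ) ^ (4 / 3 : ℝ) := Real.rpow_pos_of_pos hm0 _
  have hU2 : (n : ℝ) ^ (4 / 3 : ℝ) * (n : ℝ) ^ (4 / 3 : ℝ) = (n : ℝ) ^ (8 / 3 - (0:ℝ)) := by
    rw [← Real.rpow_add hm0]; norm_num
  set X : Finset Edg → ℝ := fun F => ((Vg M B n F).card : ℝ) with hX
  have hX0 : ∀ F, 0 ≤ X F := fun F => Nat.cast_nonneg _
  -- first moment
  have l1 : A * (n : ℝ) ^ (4 / 3 : ℝ) ≤ H934E.EE (RE 0 n 0 n) X := by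
    have e1 : H934E.EE (RE 0 n 0 n) X =
        ∑ v ∈ Ctr n, Pr (fun _ => (1 / 2 : ℝ)) (RE 0 n 0 n) (Ag M B n v) := by
      have e0 : H934E.EE (RE 0 n 0 n) X = H934E.EE (RE 0 n 0 n) (fun F => ∑ v ∈ Ctr n,
          ind (Ag M B n v F)) := by
        congr 1
        funext F
        exact V_N M B n F
      rw [e0]
      unfold H934E.EE
      rw [Ex_sum]
      rfl
    rw [e1]
    exact hfir n hn
  -- second moment
  have l2 : H934E.EE (RE 0 n 0 n) (fun F => X F * X F) ≤ C0 * (n : ℝ) ^ (8 / 3 - (0:ℝ)) := by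
    refine le_trans (le_of_eq ?_) (hE0 M B n hn16)
    congr 1
    funext F
    exact V_sq M B n F
  have k := paley (S := RE 0 n 0 n) (f := X) (fun F _ => hX0 F)
    (m := A * (n : ℝ) ^ (4 / 3 : ℝ)) (V := C0 * (n : ℝ) ^ (8 / 3 - (0:ℝ)))
    (by positivity) (by positivity) l1 l2
  have e3 : (A * (n : ℝ) ^ (4 / 3 : ℝ)) ^ 2 /
      (4 * (C0 * (n : ℝ) ^ (8 / 3 - (0:ℝ)))) = 2 * p := by
    rw [← hU2, hp]
    field_simp
  rw [e3] at k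
  -- energy
  have hU3 : 0 < (n : ℝ) ^ (8 / 3 - t) := Real.rpow_pos_of_pos hm0 _
  have i2 := markov (S := RE 0 n 0 n) (f := En t M B n) (fun F _ => En_nonneg t M B n F)
    (t := Ct / p * (n : ℝ) ^ (8 / 3 - t)) (by positivity)
  have i3 : H934E.EE (RE 0 n 0 n) (En t M B n) / (Ct / p * (n : ℝ) ^ (8 / 3 - t)) ≤ p := by
    rw [div_le_iff₀ (by positivity)]
    refine (hEt M B n hn16).trans (le_of_eq ?_)
    field_simp
  have i4 : Q (RE 0 n 0 n) (fun F => A * (n : ℝ) ^ (4 / 3 : ℝ) / 2 ≤ X F) ≤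
      Q (RE 0 n 0 n) (Gd (A / 2) (Ct / p) t M B n) +
      Q (RE 0 n 0 n) (fun F => Ct / p * (n : ℝ) ^ (8 / 3 - t) ≤ En t M B n F) := by
    refine le_trans ?_ (Pr_or_le okhalf (RE 0 n 0 n) (Gd (A / 2) (Ct / p) t M B n) _)
    apply Q_mono
    intro F _ hF
    by_cases h5 : En t M B n F ≤ Ct / p * (n : ℝ) ^ (8 / 3 - t)
    · left
      refine ⟨?_, h5⟩
      refine le_trans (le_of_eq ?_) hF
      ring
    · exact Or.inr (le_of_not_ge h5)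
  have i5 : p ≤ Q (RE 0 n 0 n) (Gd (A / 2) (Ct / p) t M B n) := by linarith
  exact i5

end Pool.Agent.W2helper75.OB
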