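import Pool.Agent.W2helper75.OB.Lat
import Pool.Agent.W2helper75.OB.Good
import Pool.Agent.W801.AV.T_LRG
import Pool.Agent.Y989.FR.T_LIM3
import Pool.Agent.W822.PD.LL

/-!
# Accessible vertices with thick paths give points of the approximate sets
-/

set_option autoImplicit false

namespace Pool.Agent.W2helper75.OB

open H974 H12S Finset H389NS H984P H984N H342P H342L H342T
open MeasureTheory Filter Topology Pool.Agent.W92.DP Pool.Agent.W822.PD Pool.Agent.W978.PDUL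
open Pool.Agent.W424.OD Pool.Agent.W462.DPL Pool.Agent.H389R2.Dim
open Pool.Agent.Y989.FR (Qc Awy S_CHN)
open Pool.Agent.Y989.FR.LIM3 (mem_AE_sd sd_bdB)
open Pool.Agent.W801.AV (Ctr Sml E t_LRG)

theorem pt_le {n : ℕ} (v w : Vtx) : dist (pt n v) (pt n w) ≤ 2 * (((sd v w : ℤ) : ℝ) / n) := by
  have hn' : (0:ℝ) ≤ n := Nat.cast_nonneg n
  rw [dist_eq_norm]
  refine (Complex.norm_le_abs_re_add_abs_im _).trans ?_
  rw [Complex.sub_re, Complex.sub_im]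
  simp only [pt]
  rw [← sub_div, ← sub_div, abs_div, abs_div, Nat.abs_cast, sd_castR]
  have h1 := div_le_div_of_nonneg_right (le_max_left |((v.1 : ℝ) - w.1)| |((v.2 : ℝ) - w.2)|) hn'
  have h2 := div_le_div_of_nonneg_right (le_max_right |((v.1 : ℝ) - w.1)| |((v.2 : ℝ) - w.2)|) hn'
  linarith

theorem sd_edge (e : Edg) : sd (src e) (tgt e) = 1 := by
  obtain ⟨x, y, _ | _⟩ := e
  · unfold sd; simp
  · unfold sd; simp

theorem pt_adj {n : ℕ} (e : Edg) : dist (pt n (src e)) (pt n (tgt e)) ≤ 2 / n := by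
  have h := pt_le (n := n) (src e) (tgt e)
  rw [sd_edge] at h
  push_cast at h
  calc _ ≤ _ := h
    _ = 2 / n := by ring

/-- The points of the thick path. -/
def SPo (n M B k : ℕ) (W : Set Vtx) (w : Vtx) : Set ℂ :=
  {z | ∃ x, sd x w ≤ k ∧ (∀ c ∈ W, Awy M B k w c x) ∧ z = pt n x}

theorem chainO {n M B k : ℕ} {W : Set Vtx} {w : Vtx} {e : ℝ} (he : 2 / (n : ℝ) ≤ e) {x y : Vtx}
    (h : Reach {e | e ∈ Pool.Agent.Y989.FR.AE w 2 k ∧ (∀ c ∈ W, Awy M B k w c (src e)) ∧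
      ∀ c ∈ W, Awy M B k w c (tgt e)} x y) :
    Relation.ReflTransGen (fun a b => b ∈ SPo n M B k W w ∧ dist a b ≤ e) (pt n x) (pt n y) := by
  induction h with
  | refl => exact Relation.ReflTransGen.refl
  | tail _ hs ih =>
    obtain ⟨g, ⟨h1, h2, h3⟩, h4⟩ := hs
    have h5 := mem_AE_sd h1
    rcases h4 with ⟨h6, h7⟩ | ⟨h6, h7⟩
    · refine ih.tail ⟨⟨tgt g, h5.2, h3, by rw [h7]⟩, ?_⟩
      rw [← h6, ← h7]
      exact (pt_adj g).trans he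
    · refine ih.tail ⟨⟨src g, h5.1, h2, by rw [h6]⟩, ?_⟩
      rw [← h6, ← h7, dist_comm]
      exact (pt_adj g).trans he

theorem startO {n M B k : ℕ} {W : Set Vtx} {w : Vtx} {x y : Vtx}
    (h : Reach {e | e ∈ Pool.Agent.Y989.FR.AE w 2 k ∧ (∀ c ∈ W, Awy M B k w c (src e)) ∧
      ∀ c ∈ W, Awy M B k w c (tgt e)} x y) (hxy : x ≠ y) :
    pt n x ∈ SPo n M B k W w := by
  rcases Relation.ReflTransGen.cases_head h with h | ⟨c, ⟨g, ⟨h1, h2, h3⟩, h4⟩, -⟩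
  · exact absurd h hxy
  · have h5 := mem_AE_sd h1
    rcases h4 with ⟨h6, h7⟩ | ⟨h6, h7⟩
    · exact ⟨src g, h5.1, h2, by rw [h6]⟩
    · exact ⟨tgt g, h5.2, h3, by rw [h7]⟩

theorem sd_nonneg' (u v : Vtx) : 0 ≤ sd u v := le_max_of_le_left (abs_nonneg _)

theorem awayO {n : ℕ} (hn : 0 < n) {F : Finset Edg} {v w x : Vtx} {c : Curve}
    (hT : IsTrace n F v c) {M B k : ℕ} (hB : 1 ≤ B)
    (hx : ∀ c ∈ Plain.cluster F v, Awy M B k w c x) {M' : ℝ} (hM' : 0 ≤ M')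
    (h : 2 ^ B * M * (8 * ((k : ℝ) / n)) ^ (B - 1) ≤ M') (s : unitInterval) :
    dist (pt n x) (pt n w) ^ B ≤ M' * dist (pt n x) (c.path s) + M' * (1 / n) := by
  have hn' : (0:ℝ) < n := by exact_mod_cast hn
  obtain ⟨σ, N, hN, hσ1, hσ2, hper, hmin, hpath⟩ := hT
  have hst' : ∀ k < N, dist (pt n (orb (↑F) σ k).1) (pt n (orb (↑F) σ (k + 1)).1) ≤ 1 / (n : ℝ) :=
    fun k _ => pt_step' hn _ σ k
  obtain ⟨i, hiN, -, hi⟩ := poly_close hN hst' s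
  rw [← hpath] at hi
  have hci := (RNG_state hσ1 hσ2 i).1
  have h1 := hx _ hci
  unfold Awy at h1
  have h1' : (((sd x w : ℤ) : ℝ)) ^ B ≤ (M : ℝ) * ((8 * k : ℕ) : ℝ) ^ (B - 1) *
      ((sd x (orb (↑F) σ i).1 : ℤ) : ℝ) := by exact_mod_cast h1.le
  have h0 : (0:ℝ) ≤ ((sd x w : ℤ) : ℝ) := by exact_mod_cast sd_nonneg' x w
  have h00 : (0:ℝ) ≤ ((sd x (orb (↑F) σ i).1 : ℤ) : ℝ) := by exact_mod_cast sd_nonneg' _ _
  have h2 : dist (pt n x) (pt n w) ^ B ≤ (2 * (((sd x w : ℤ) : ℝ) / n)) ^ B :=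
    pow_le_pow_left₀ dist_nonneg (pt_le _ _) B
  have h3 : (n : ℝ)⁻¹ * ((sd x (orb (↑F) σ i).1 : ℤ) : ℝ) ≤
      dist (pt n x) (c.path s) + 1 / n := by
    have e1 := pt_dist hn x (orb (↑F) σ i).1
    have e3 := dist_triangle (pt n x) (c.path s) (pt n (orb (↑F) σ i).1)
    linarith
  obtain ⟨b, rfl⟩ : ∃ b, B = b + 1 := ⟨B - 1, by omega⟩
  simp only [Nat.add_sub_cancel] at h h1'
  have h4 : (2 * (((sd x w : ℤ) : ℝ) / n)) ^ (b + 1) =
      2 ^ (b + 1) * ((n : ℝ)⁻¹) ^ (b + 1) * ((sd x w : ℤ) : ℝ) ^ (b + 1) := by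
    rw [div_eq_mul_inv, mul_pow, mul_pow]; ring
  have h5 : 2 ^ (b + 1) * ((n : ℝ)⁻¹) ^ (b + 1) * ((sd x w : ℤ) : ℝ) ^ (b + 1) ≤
      2 ^ (b + 1) * ((n : ℝ)⁻¹) ^ (b + 1) * ((M : ℝ) * ((8 * k : ℕ) : ℝ) ^ b *
      ((sd x (orb (↑F) σ i).1 : ℤ) : ℝ)) := by
    refine mul_le_mul_of_nonneg_left h1' (by positivity)
  have h6 : 2 ^ (b + 1) * ((n : ℝ)⁻¹) ^ (b + 1) * ((M : ℝ) * ((8 * k : ℕ) : ℝ) ^ b *
      ((sd x (orb (↑F) σ i).1 : ℤ) : ℝ)) = (2 ^ (b + 1) * M * (8 * ((k : ℝ) / n)) ^ b) *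
        ((n : ℝ)⁻¹ * ((sd x (orb (↑F) σ i).1 : ℤ) : ℝ)) := by
    rw [div_eq_mul_inv, ← mul_assoc (8 : ℝ), mul_pow _ ((n : ℝ)⁻¹)]; push_cast; ring
  have h7 : 0 ≤ (n : ℝ)⁻¹ * ((sd x (orb (↑F) σ i).1 : ℤ) : ℝ) := by positivity
  calc dist (pt n x) (pt n w) ^ (b + 1) ≤ _ := h2
    _ = _ := h4
    _ ≤ _ := h5
    _ = _ := h6
    _ ≤ M' * ((n : ℝ)⁻¹ * ((sd x (orb (↑F) σ i).1 : ℤ) : ℝ)) := mul_le_mul_of_nonneg_right h h7
    _ ≤ M' * (dist (pt n x) (c.path s) + 1 / n) := mul_le_mul_of_nonneg_left h3 hM'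
    _ = _ := by ring

theorem pt_norm {n : ℕ} (hn : 0 < n) {w : Vtx} (hw : w ∈ Plain.box n) : ‖pt n w‖ ≤ 2 := by
  obtain ⟨⟨h1, h2⟩, h3, h4⟩ := CPT_pt_box hn hw
  have := Complex.norm_le_abs_re_add_abs_im (pt n w)
  rw [abs_of_nonneg h1, abs_of_nonneg h3] at this
  linarith

theorem cl_eq {F : Finset Edg} {v w : Vtx} (h : w ∈ Plain.cluster F v) :
    Plain.cluster F w = Plain.cluster F v := by
  rw [Plain.mem_cluster] at h
  ext x
  rw [Plain.mem_cluster, Plain.mem_cluster]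
  exact ⟨fun h1 => h.trans h1, fun h1 => h.symm.trans h1⟩

/-- Vertices with a thick path give points of the approximate set. -/
theorem mem_QcO {n : ℕ} (hn : 2 ≤ n) {F : Finset Edg} (hF : F ⊆ Plain.edges n) {v w : Vtx}
    (hv : v ∈ Plain.box n) (hw : w ∈ Plain.box n) {c : Curve} (hT : IsTrace n F v c)
    (hacc : Accessible n F v w) {M B : ℕ} (hB : 1 ≤ B)
    (hth : Thk M B (2 * n) w (Plain.cluster F v)) {M' e : ℝ} (hM' : 0 ≤ M')
    (h : 2 ^ B * M * 16 ^ (B - 1) ≤ M') (he : 4 / (n : ℝ) ≤ e) (he' : M' * (1 / n) ≤ e) {N : ℕ}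
    (hN : ∀ (S : Set ℂ) (a b : ℂ), (∀ x ∈ S, ‖x‖ ≤ 8) →
      a ∈ S → Relation.ReflTransGen (fun x y => y ∈ S ∧ dist x y ≤ e) a b →
      ∃ x : Fin (N + 1) → ℂ, (∀ i, x i ∈ S) ∧ x 0 = a ∧ x (Fin.last N) = b ∧
      ∀ i : Fin N, dist (x i.castSucc) (x i.succ) ≤ e) :
    (c.path, pt n w) ∈ Qc M' 2 8 e B N := by
  have hn0 : 0 < n := by omega
  have hn' : (0:ℝ) < n := by exact_mod_cast hn0
  have hrange := (t_rng n F v c hn0 hF hv hT).2
  obtain ⟨hwv, g, p, q, hg, hp, hq, hpq⟩ := hacc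
  have hbd : pt n w ∈ outerBoundary n F v := by
    have hadj : Adj Set.univ w p := by
      refine ⟨g, Set.mem_univ _, ?_⟩
      rw [Plain.fst_eq, Plain.snd_eq] at hg
      rcases hg with hg | hg
      · exact Or.inl hg
      · exact Or.inr hg
    exact bdry_of_avoid hn0 hF hv hwv hadj hp hq (avoid_reach hpq)
  obtain ⟨x, hx, y, hy, hr⟩ := hth
  have hx' := sd_bdB hx
  have hy' := sd_bdB hy
  have hxy : x ≠ y := by
    rintro rfl
    rw [hx'] at hy'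
    have : (2:ℕ) = 2 * n := by exact_mod_cast hy'
    omega
  have hpw := pt_norm hn0 hw
  have hk : ((2 * n : ℕ) : ℝ) / n = 2 := by
    push_cast
    field_simp
  have hbdd : ∀ z ∈ SPo n M B (2 * n) (Plain.cluster F v) w, ‖z‖ ≤ 8 := by
    rintro z ⟨u, hu, -, rfl⟩
    have h1 := pt_le (n := n) u w
    have h2 : ((sd u w : ℤ) : ℝ) / n ≤ 2 := by
      rw [← hk]
      exact div_le_div_of_nonneg_right (by exact_mod_cast hu) hn'.le
    have h3 : ‖pt n u‖ ≤ ‖pt n w‖ + dist (pt n u) (pt n w) := by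
      rw [dist_eq_norm]
      have := norm_add_le (pt n w) (pt n u - pt n w)
      rwa [add_sub_cancel] at this
    linarith
  have h24 : 2 / (n : ℝ) ≤ 4 / n := div_le_div_of_nonneg_right (by norm_num) hn'.le
  obtain ⟨X, h1, h2, h3, h4⟩ := hN (SPo n M B (2 * n) (Plain.cluster F v) w) (pt n x) (pt n y)
    hbdd (startO hr hxy) (chainO (h24.trans he) hr)
  have he0 : 0 ≤ e := le_trans (by positivity) he
  refine ⟨?_, ?_, X, fun i => hbdd _ (h1 i), ?_, ?_, h4, ?_⟩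
  · show ‖pt n w‖ ≤ 8
    linarith
  · show ∃ s, dist (c.path s) (pt n w) ≤ e
    rw [← hrange] at hbd
    obtain ⟨s, hs⟩ := hbd
    exact ⟨s, by rw [hs, dist_self]; exact he0⟩
  · show dist (X 0) (pt n w) ≤ e
    rw [h2]
    have := pt_le (n := n) x w
    rw [hx'] at this
    push_cast at this
    calc _ ≤ _ := this
      _ = 4 / n := by ring
      _ ≤ e := he
  · show 2 ≤ dist (X (Fin.last N)) (pt n w) + e
    rw [h3]
    have := pt_dist hn0 y w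
    rw [hy', inv_mul_eq_div] at this
    have e2 : (((2 * n : ℕ) : ℤ) : ℝ) / n = 2 := by
      push_cast
      field_simp
    rw [e2] at this
    linarith
  · intro i s
    show dist (X i) (pt n w) ^ B ≤ M' * dist (X i) (c.path s) + e
    obtain ⟨u, -, hu, hz⟩ := h1 i
    rw [hz]
    have := awayO hn0 hT hB hu hM' (by rw [hk]; norm_num; exact h) s
    linarith

theorem mem_Vg {M B n : ℕ} {w : Vtx} {F : Finset Edg} (hw : w ∈ Vg M B n F) :
    w ∈ Ctr n ∧ Ag M B n w F := by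
  classical
  unfold Vg at hw
  exact Finset.mem_filter.1 hw

theorem box_of_ctr {n : ℕ} {w : Vtx} (hw : w ∈ Ctr n) : w ∈ Plain.box n := by
  unfold Ctr at hw
  exact (Finset.mem_filter.1 hw).1

/-- The good event makes the approximate set good. -/
theorem good_of_Gd {n : ℕ} (hn : 16 ≤ n) {F : Finset Edg} (hF : F ⊆ Plain.edges n) {v : Vtx}
    (hL : Plain.Largest n F v) {c : Curve} (hT : IsTrace n F v c) {M B : ℕ} (hB : 1 ≤ B)
    {c0 E0 t : ℝ} (hG : Gd c0 E0 t M B n F) (hc0 : 0 < c0) (hE0 : 0 < E0) (ht : 0 < t)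
    {M' ε' : ℝ} (hM' : 0 ≤ M') (h : 2 ^ B * M * 16 ^ (B - 1) ≤ M') (hε : 4 / (n : ℝ) ≤ ε')
    (hε2 : M' * (1 / n) ≤ ε') {NN : ℕ → ℕ}
    (hN : ∀ k : ℕ, ∀ (S : Set ℂ) (a b : ℂ), (∀ x ∈ S, ‖x‖ ≤ 8) →
      a ∈ S → Relation.ReflTransGen (fun x y => y ∈ S ∧ dist x y ≤ 1 / ((k : ℝ) + 1)) a b →
      ∃ x : Fin (NN k + 1) → ℂ, (∀ i, x i ∈ S) ∧ x 0 = a ∧ x (Fin.last (NN k)) = b ∧
      ∀ i : Fin (NN k), dist (x i.castSucc) (x i.succ) ≤ 1 / ((k : ℝ) + 1)) :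
    Good t ε' (2 ^ (-t) / (E0 / c0 ^ 2)) {z | z ∈ Sqc ∧ ∀ k : ℕ, ε' ≤ 1 / ((k : ℝ) + 1) →
      (c.path, z) ∈ Qc M' 2 8 (1 / ((k : ℝ) + 1)) B (NN k)} := by
  classical
  have hn0 : 0 < n := by omega
  obtain ⟨hcard, hEn⟩ := hG
  have hn' : (0:ℝ) < n := by exact_mod_cast hn0
  have hcpos : (0 : ℝ) < ((Vg M B n F).card : ℝ) := lt_of_lt_of_le (by positivity) hcard
  have hne : (Vg M B n F).Nonempty := by
    rw [← Finset.card_pos]; exact_mod_cast hcpos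
  have hε0 : 0 < ε' := lt_of_lt_of_le (by positivity) hε
  have hF' : F ⊆ RE 0 n 0 n := by rwa [← Plain.edges_eq]
  refine good_of_energy hε0 ht.le (by positivity) ((Vg M B n F).image (pt n)) (hne.image _) ?_ ?_
  · intro z hz
    rw [Finset.mem_coe, Finset.mem_image] at hz
    obtain ⟨w, hw, rfl⟩ := hz
    obtain ⟨hwC, ⟨hE, hTh⟩, hS⟩ := mem_Vg hw
    obtain ⟨h1, h2⟩ := t_LRG n w F hn hwC hF' hE hS v hL
    have hwb := box_of_ctr hwC
    have hacc : Accessible n F v w := by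
      unfold accessible at h2
      exact (Finset.mem_filter.1 h2).2
    have hcl : Plain.cluster F w = Plain.cluster F v := (cl_eq h1).symm
    rw [hcl] at hTh
    refine ⟨?_, fun k hk => ?_⟩
    · obtain ⟨⟨a1, a2⟩, a3, a4⟩ := CPT_pt_box hn0 hwb
      exact ⟨a1, a2, a3, a4⟩
    · exact mem_QcO (by omega) hF hL.1 hwb hT hacc hB hTh hM' h (hε.trans hk) (hε2.trans hk) (hN k)
  · rw [Finset.sum_image (fun a _ b _ hab => pt_inj hn0 hab),
      Finset.card_image_of_injective _ (pt_inj hn0)]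
    have e1 : ∀ v ∈ Vg M B n F, ∑ y ∈ (Vg M B n F).image (pt n),
        (max (dist (pt n v) y) ε') ^ (-t) ≤
        ∑ w ∈ Vg M B n F, ((n:ℝ)⁻¹) ^ (-t) * ((max (sd v w) 1 : ℤ) : ℝ) ^ (-t) := by
      intro v _
      rw [Finset.sum_image (fun a _ b _ hab => pt_inj hn0 hab)]
      refine Finset.sum_le_sum fun w _ => ?_
      have hm : (1 : ℝ) ≤ ((max (sd v w) 1 : ℤ) : ℝ) := by
        exact_mod_cast le_max_right (sd v w) 1
      rw [← Real.mul_rpow (by positivity) (by linarith)]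
      refine Real.rpow_le_rpow_of_nonpos (by positivity) ?_ (by linarith)
      have h6 := pt_dist hn0 v w
      rcases max_cases (sd v w) 1 with h | h
      · rw [h.1]; exact h6.trans (le_max_left _ _)
      · rw [h.1]; push_cast; rw [mul_one]
        refine le_trans ?_ (le_max_right _ _)
        rw [← one_div]
        exact (div_le_div_of_nonneg_right (by norm_num) hn'.le).trans hε
    refine (Finset.sum_le_sum e1).trans ?_
    have e2 : ∑ v ∈ Vg M B n F, ∑ w ∈ Vg M B n F,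
        ((n:ℝ)⁻¹) ^ (-t) * ((max (sd v w) 1 : ℤ) : ℝ) ^ (-t) = ((n:ℝ)⁻¹) ^ (-t) * En t M B n F := by
      unfold En
      rw [Finset.mul_sum]
      refine Finset.sum_congr rfl fun v _ => ?_
      rw [Finset.mul_sum]
    rw [e2]
    have e3 : (c0 * (n : ℝ) ^ (4/3 : ℝ)) ^ 2 ≤ ((Vg M B n F).card : ℝ) ^ 2 :=
      pow_le_pow_left₀ (by positivity) hcard 2
    have e4 : (c0 * (n : ℝ) ^ (4/3 : ℝ)) ^ 2 = c0 ^ 2 * (n : ℝ) ^ (8/3 : ℝ) := by
      rw [mul_pow, ← Real.rpow_natCast ((n : ℝ) ^ (4/3 : ℝ)) 2, ← Real.rpow_mul hn'.le]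
      norm_num
    rw [e4] at e3
    have e5 : ((n:ℝ)⁻¹) ^ (-t) = (n:ℝ) ^ t := by
      rw [Real.inv_rpow hn'.le, Real.rpow_neg hn'.le, inv_inv]
    rw [e5]
    calc (n:ℝ) ^ t * En t M B n F ≤ (n:ℝ) ^ t * (E0 * (n : ℝ) ^ (8/3 - t)) :=
          mul_le_mul_of_nonneg_left hEn (by positivity)
      _ = E0 / c0 ^ 2 * (c0 ^ 2 * (n : ℝ) ^ (8/3 : ℝ)) := by
          have : (n:ℝ) ^ t * (n : ℝ) ^ (8/3 - t) = (n : ℝ) ^ (8/3 : ℝ) := by
            rw [← Real.rpow_add hn']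
            congr 1
            ring
          rw [← this]
          field_simp
      _ ≤ E0 / c0 ^ 2 * ((Vg M B n F).card : ℝ) ^ 2 := mul_le_mul_of_nonneg_left e3 (by positivity)

end Pool.Agent.W2helper75.OB
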