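import Pool.Agent.W2helper75.OB.Lim
import Pool.Agent.W801.AV.All2
import Pool.Agent.Y989.FR.All
import Pool.Agent.W320.PD.HB
import Pool.Agent.W424.KI.Fin

/-!
# Outer boundaries of the limits: assembly
-/

set_option autoImplicit false

namespace Pool.Agent.W2helper75.OB

open H974 H12S Finset H389NS H984P H984N H342P H342L H342T
open MeasureTheory Filter Topology Pool.Agent.W822.PD Pool.Agent.W424.OD
open scoped ENNReal

theorem a_good : ∃ (M B n0 : ℕ) (c0 p : ℝ), 16 ≤ M ∧ 1 ≤ B ∧ 80 ≤ n0 ∧ 0 < c0 ∧ 0 < p ∧ p ≤ 1 ∧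
    GoodB M B n0 c0 p := by
  obtain ⟨M, B, n0, c0, p, h1, h2, h3, h4, h5, h6, h7⟩ :=
    good (Pool.Agent.Y989.FR.ACC.t_ACC Pool.Agent.Y989.FR.a_L3)
      (Pool.Agent.Y989.FR.a_THK Pool.Agent.Y989.FR.a_JR Pool.Agent.Y989.FR.a_U3)
      Pool.Agent.W801.AV.t_SML Pool.Agent.W801.AV.a_TWO
      (Pool.Agent.W801.AV.t_ONU Pool.Agent.W424.KI.u3)
  exact ⟨M, B, n0, c0, p, h1, h2, h3, h4, h5, h6, h7⟩

theorem fin : ∃ p : ℝ, 0 < p ∧ ∀ (sel : (n : ℕ) → Finset Plain.Edge → ℤ × ℤ)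
    (γ : (n : ℕ) → Finset Plain.Edge → Curve), Tr sel γ → ∀ (k : ℕ → ℕ),
    Tendsto k atTop atTop → ∀ μ : ProbabilityMeasure Curve,
    Tendsto (fun i => lawOf (k i) (γ (k i))) atTop (𝓝 μ) →
    (∀ᵐ c : Curve ∂(μ : Measure Curve), dimH (oB (Set.range c.path)) ≤ 4 / 3) ∧
    (μ : Measure Curve) {c : Curve | dimH (oB (Set.range c.path)) ≠ 4 / 3} ≤
      ENNReal.ofReal (1 - p) := by
  obtain ⟨M, B, n0, c0, p, h1, h2, h3, h4, h5, h6, h7⟩ := a_good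
  refine ⟨p, h5, fun sel γ hT k hk μ hμ => ?_⟩
  exact lim_pos Pool.Agent.Y989.FR.QC.t_QC Pool.Agent.Y989.FR.CHN.t_CHN Pool.Agent.W424.KI.u3
    Pool.Agent.W320.PD.HB.hb h1 h2 h4 h5 h6 h7 hT hk hμ

end Pool.Agent.W2helper75.OB
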