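import Pool.Agent.Y989.FR.T_GEO
import Pool.Agent.W2helper75.OB.Up
import Pool.Agent.W822.PD.LL

/-!
# The limit points lie on the outer boundary
-/

set_option autoImplicit false

namespace Pool.Agent.W2helper75.OB

open Set Metric
open Pool.Agent.Y989.FR (Qc)
open Pool.Agent.Y989.FR.GEO
open Pool.Agent.W822.PD (Sqc isCompact_Sqc)
open Pool.Agent.W424.OD (unb oB)

theorem step2 {M κ R : ℝ} {B : ℕ} {N : ℕ → ℕ} {f : C(unitInterval, ℂ)} {z : ℂ} (hM : 0 < M)
    (hκ : 0 < κ) (hQ : ∀ k : ℕ, (f, z) ∈ Qc M κ R (1 / ((k : ℝ) + 1)) B (N k)) {η : ℝ}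
    (hη : 0 < η) (hηκ : η ≤ κ / 4) :
    ∃ u v : ℂ, κ - η ≤ dist u z ∧ dist v z ≤ 2 * η ∧ v ∈ (range f)ᶜ ∧ u ∈ (range f)ᶜ ∧
      connectedComponentIn (range f)ᶜ v = connectedComponentIn (range f)ᶜ u := by
  have hηB : 0 < η ^ B := pow_pos hη B
  have hmη : 0 < η ^ B / (2 * M) := by positivity
  have hpow : η ^ B ≤ (κ / 2) ^ B := pow_le_pow_left₀ hη.le (by linarith) B
  obtain ⟨k, hk⟩ := exists_nat_one_div_lt (lt_min (lt_min (half_pos hηB) hmη) (lt_min hη
    (half_pos hκ)))
  set e : ℝ := 1 / ((k : ℝ) + 1) with he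
  have he1 : e < η ^ B / 2 := hk.trans_le ((min_le_left _ _).trans (min_le_left _ _))
  have he2 : e < η ^ B / (2 * M) := hk.trans_le ((min_le_left _ _).trans (min_le_right _ _))
  have he3 : e < η := hk.trans_le ((min_le_right _ _).trans (min_le_left _ _))
  have he4 : e < κ / 2 := hk.trans_le ((min_le_right _ _).trans (min_le_right _ _))
  have hQk := hQ k
  rw [← he] at hQk
  generalize N k = n at hQk
  obtain ⟨-, -, x, hxR, hx0, hxN, hxs, hxd⟩ := hQk
  replace hx0 : dist (x 0) z ≤ e := hx0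
  replace hxN : κ ≤ dist (x (Fin.last n)) z + e := hxN
  replace hxd : ∀ i s, dist (x i) z ^ B ≤ M * dist (x i) (f s) + e := hxd
  -- the chain with natural indices
  let X : ℕ → ℂ := fun i => x ⟨min i n, by omega⟩
  have hX0 : X 0 = x 0 := congrArg x (Fin.ext (Nat.zero_min n))
  have hXN : X n = x (Fin.last n) := congrArg x (Fin.ext (min_self n))
  have hXs : ∀ i, i < n → dist (X i) (X (i + 1)) ≤ e := by
    intro i hi
    have h1 := hxs ⟨i, hi⟩
    have e1 : X i = x (Fin.castSucc ⟨i, hi⟩) := congrArg x (Fin.ext (min_eq_left hi.le))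
    have e2 : X (i + 1) = x (Fin.succ ⟨i, hi⟩) := congrArg x (Fin.ext (min_eq_left hi))
    rw [e1, e2]
    exact h1
  have hXd : ∀ i s, dist (X i) z ^ B ≤ M * dist (X i) (f s) + e := fun i s => hxd _ s
  -- points away from `z`
  have away : ∀ (i : ℕ) (ρ : ℝ), 0 < ρ → η ≤ ρ → ρ ≤ dist (X i) z →
      ball (X i) (ρ ^ B / (2 * M)) ⊆ (range f)ᶜ := by
    intro i ρ hρ hηρ hi
    apply Pool.Agent.Y989.FR.GEO.ball_sub
    rintro _ ⟨s, rfl⟩
    have h1 := hXd i s
    have h2 : ρ ^ B ≤ dist (X i) z ^ B := pow_le_pow_left₀ hρ.le hi B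
    have h3 : η ^ B ≤ ρ ^ B := pow_le_pow_left₀ hη.le hηρ B
    rw [div_le_iff₀ (by positivity)]
    linarith
  have hP0 : dist (X 0) z < η := by
    rw [hX0]
    exact hx0.trans_lt he3
  have hPN : ¬ dist (X n) z < η := by
    rw [hXN]
    intro h
    linarith
  obtain ⟨j, hj, hPj, hPi⟩ := last_index (P := fun i => dist (X i) z < η) hP0 hPN
  have hcomp : ∀ i, j < i → i ≤ n →
      connectedComponentIn (range f)ᶜ (X (j + 1)) = connectedComponentIn (range f)ᶜ (X i) := by
    intro i hi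
    induction i, hi using Nat.le_induction with
    | base => intro _; rfl
    | succ i hi ih =>
      intro hin
      rw [ih (by omega)]
      refine comp_eq hmη (away i η hη le_rfl (not_lt.1 (hPi i hi (by omega)))) ?_
      exact (hXs i (by omega)).trans_lt he2
  have hjmem : X (j + 1) ∈ (range f)ᶜ :=
    away (j + 1) η hη le_rfl (not_lt.1 (hPi (j + 1) (by omega) (by omega))) (mem_ball_self hmη)
  have hnmem : X n ∈ (range f)ᶜ :=
    away n η hη le_rfl (not_lt.1 (hPi n hj le_rfl)) (mem_ball_self hmη)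
  refine ⟨X n, X (j + 1), ?_, ?_, hjmem, hnmem, hcomp n hj le_rfl⟩
  · rw [hXN]
    linarith
  · have h1 := dist_triangle (X (j + 1)) (X j) z
    have h2 := hXs j hj
    rw [dist_comm] at h2
    linarith

/-- a convex unbounded set which avoids `K` -/
theorem unb_of_convex {K H : Set ℂ} (hH : Convex ℝ H) (hHK : H ⊆ Kᶜ) {u : ℂ} (hu : u ∈ H)
    (hb : ¬ Bornology.IsBounded H) : ¬ Bornology.IsBounded (connectedComponentIn Kᶜ u) :=
  fun h => hb (h.subset (hH.isPreconnected.subset_connectedComponentIn hu hHK))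

theorem line_unbounded {H : Set ℂ} (u v : ℂ) (hv : v ≠ 0) (h : ∀ t : ℝ, 0 ≤ t → u + t * v ∈ H) :
    ¬ Bornology.IsBounded H := by
  intro hb
  obtain ⟨R, hR⟩ := isBounded_iff_forall_norm_le.1 hb
  have hv' : 0 < ‖v‖ := norm_pos_iff.2 hv
  have h1 := hR _ (h ((|R| + ‖u‖ + 1) / ‖v‖) (by positivity))
  have h2 : ‖((((|R| + ‖u‖ + 1) / ‖v‖ : ℝ) : ℂ)) * v‖ = |R| + ‖u‖ + 1 := by
    rw [norm_mul, Complex.norm_real, Real.norm_eq_abs, abs_of_nonneg (by positivity)]
    field_simp
  have h3 := norm_sub_norm_le ((((|R| + ‖u‖ + 1) / ‖v‖ : ℝ) : ℂ) * v) (-u)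
  rw [h2, norm_neg, sub_neg_eq_add, add_comm _ u] at h3
  have h4 := le_abs_self R
  linarith

/-- points outside the closed unit square are in the unbounded component -/
theorem out_unb {K : Set ℂ} (hK : K ⊆ Sqc) {u : ℂ} (hu : u ∉ Sqc) :
    ¬ Bornology.IsBounded (connectedComponentIn Kᶜ u) := by
  have h : u.re < 0 ∨ 1 < u.re ∨ u.im < 0 ∨ 1 < u.im := by
    unfold Sqc at hu
    simp only [mem_ofPred_eq, not_and_or, not_le] at hu
    exact hu
  have key : ∀ H : Set ℂ, (∀ z ∈ H, z ∉ Sqc) → H ⊆ Kᶜ := fun H hH z hz hzK => hH z hz (hK hzK)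
  rcases h with h | h | h | h
  · refine unb_of_convex (H := {z | z.re < 0}) (convex_halfSpace_re_lt 0) (key _ ?_) h ?_
    · intro z hz hz2
      exact absurd hz2.1 (not_le.2 hz)
    · refine line_unbounded u (-1) (by simp) fun t ht => ?_
      simp only [mem_ofPred_eq, Complex.add_re, Complex.mul_re, Complex.ofReal_re, Complex.neg_re,
        Complex.one_re, Complex.ofReal_im, Complex.neg_im, Complex.one_im]
      linarith
  · refine unb_of_convex (H := {z | 1 < z.re}) (convex_halfSpace_re_gt 1) (key _ ?_) h ?_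
    · intro z hz hz2
      exact absurd hz2.2.1 (not_le.2 hz)
    · refine line_unbounded u 1 (by simp) fun t ht => ?_
      simp only [mem_ofPred_eq, Complex.add_re, Complex.mul_re, Complex.ofReal_re,
        Complex.one_re, Complex.ofReal_im, Complex.one_im]
      linarith
  · refine unb_of_convex (H := {z | z.im < 0}) (convex_halfSpace_im_lt 0) (key _ ?_) h ?_
    · intro z hz hz2
      exact absurd hz2.2.2.1 (not_le.2 hz)
    · refine line_unbounded u (-Complex.I) (by simp) fun t ht => ?_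
      simp only [mem_ofPred_eq, Complex.add_im, Complex.mul_im, Complex.ofReal_re, Complex.neg_re,
        Complex.I_re, Complex.ofReal_im, Complex.neg_im, Complex.I_im]
      linarith
  · refine unb_of_convex (H := {z | 1 < z.im}) (convex_halfSpace_im_gt 1) (key _ ?_) h ?_
    · intro z hz hz2
      exact absurd hz2.2.2.2 (not_le.2 hz)
    · refine line_unbounded u Complex.I (by simp) fun t ht => ?_
      simp only [mem_ofPred_eq, Complex.add_im, Complex.mul_im, Complex.ofReal_re,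
        Complex.I_re, Complex.ofReal_im, Complex.I_im]
      linarith

theorem sqc_dist {u z : ℂ} (hu : u ∈ Sqc) (hz : z ∈ Sqc) : dist u z ≤ 3 / 2 := by
  obtain ⟨a1, a2, a3, a4⟩ := hu
  obtain ⟨b1, b2, b3, b4⟩ := hz
  rw [Complex.dist_eq, Complex.norm_eq_sqrt_sq_add_sq]
  apply Real.sqrt_le_iff.2
  refine ⟨by norm_num, ?_⟩
  rw [Complex.sub_re, Complex.sub_im]
  nlinarith

/-- **GEO for the outer boundary.** -/
theorem geoO {M R : ℝ} {B : ℕ} {N : ℕ → ℕ} {f : C(unitInterval, ℂ)} {z : ℂ} (hM : 0 < M)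
    (hf : range f ⊆ Sqc)
    (hQ : ∀ k : ℕ, (f, z) ∈ Qc M 2 R (1 / ((k : ℝ) + 1)) B (N k)) : z ∈ oB (range f) := by
  set K : Set ℂ := range f with hK
  have hKc : IsCompact K := isCompact_range f.continuous
  have hz : z ∈ K := by
    rw [← hKc.isClosed.closure_eq, Metric.mem_closure_iff]
    intro ε hε
    obtain ⟨k, hk⟩ := exists_nat_one_div_lt hε
    obtain ⟨-, ⟨s, hs⟩, -⟩ := hQ k
    refine ⟨f s, mem_range_self s, ?_⟩
    rw [dist_comm]
    exact hs.trans_lt hk
  have hcl : z ∈ closure (unb K) := by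
    rw [Metric.mem_closure_iff]
    intro ε hε
    obtain ⟨u, v, h1, h2, h3, h4, h5⟩ := step2 hM two_pos hQ
      (lt_min (by norm_num : (0 : ℝ) < 1 / 4) (by positivity : (0 : ℝ) < ε / 4))
      ((min_le_left _ _).trans (by norm_num))
    have e1 : min (1 / 4) (ε / 4) ≤ 1 / 4 := min_le_left _ _
    have e2 : min (1 / 4) (ε / 4) ≤ ε / 4 := min_le_right _ _
    refine ⟨v, ⟨h3, ?_⟩, ?_⟩
    · rw [h5]
      apply out_unb hf
      intro hu
      have := sqc_dist hu (hf hz)
      linarith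
    · rw [dist_comm]
      linarith
  unfold oB
  rw [(unb_open hKc.isClosed).frontier_eq]
  exact ⟨hcl, fun h => h.1 hz⟩

end Pool.Agent.W2helper75.OB
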