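import Pool.Agent.W978.PD.UL
import Pool.Agent.W424.OD.Ann
import Pool.Agent.H342R3.Tig.RNG
import Pool.Agent.H342R3.Tig.ORB
import Pool.Agent.H342R3.Tig.POL

/-!
Outer boundaries of the limits of the closed path: the lattice part.  A lattice path to the outside
of the box which stays away from the outer boundary of a cluster avoids this cluster.
-/

set_option autoImplicit false

namespace Pool.Agent.W2helper75.OB

open H974 H12S Finset H389NS H984P H984N H342P H342L H342T
open MeasureTheory Filter Topology Pool.Agent.W92.DP Pool.Agent.W822.PD Pool.Agent.W978.PDUL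
open Pool.Agent.W424.OD Pool.Agent.W462.DPL

/-! ### Faces around a vertex outside the cluster -/

theorem edge_out {F : Finset Edg} {v u : ℤ × ℤ} (hu : u ∉ Plain.cluster F v) {e : Edg}
    (he : Plain.fst e = u ∨ Plain.snd e = u) : e ∉ Plain.clusterEdges F v := by
  intro h
  rcases he with he | he
  · exact hu (he ▸ h.2)
  · exact hu (he ▸ RNG_snd h)

theorem faces_ne {F : Finset Edg} {v u : ℤ × ℤ} (hu : u ∉ Plain.cluster F v) {f : ℤ × ℤ}
    (hf : Inc u f) : (Plain.faceGraph (Plain.clusterEdges F v)).Reachable f (u.1, u.2) := by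
  obtain ⟨x, y⟩ := u
  obtain ⟨a, b⟩ := f
  have h1 : ((x, y, true) : Edg) ∉ Plain.clusterEdges F v := edge_out hu (Or.inl rfl)
  have h2 : ((x, y, false) : Edg) ∉ Plain.clusterEdges F v := edge_out hu (Or.inl rfl)
  have h3 : ((x - 1, y, true) : Edg) ∉ Plain.clusterEdges F v :=
    edge_out hu (Or.inr (by simp [Plain.snd]))
  have g1 := TOPB_adj h1
  have g2 := TOPB_adj h2
  have g3 := TOPB_adj h3
  simp only [Plain.side₁, Plain.side₂, if_true, Bool.false_eq_true, if_false] at g1 g2 g3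
  obtain ⟨hf1, hf2⟩ := hf
  simp only at hf1 hf2 ⊢
  rcases hf1 with rfl | rfl <;> rcases hf2 with rfl | rfl
  · exact SimpleGraph.Reachable.refl _
  · exact g1
  · exact g2
  · exact g3.trans g2

theorem faces_joined {F : Finset Edg} {v u : ℤ × ℤ} (hu : u ∉ Plain.cluster F v) {f g : ℤ × ℤ}
    (hf : Inc u f) (hg : Inc u g) :
    (Plain.faceGraph (Plain.clusterEdges F v)).Reachable f g :=
  (faces_ne hu hf).trans (faces_ne hu hg).symm

/-- the edges which avoid the cluster -/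
def Avo (F : Finset Edg) (v : ℤ × ℤ) : Set Edg :=
  {e | ¬ Reach (↑F : Set Edg) v (src e) ∧ ¬ Reach (↑F : Set Edg) v (tgt e)}

theorem inc_side_fst (e : Edg) : Inc (Plain.fst e) (Plain.side₁ e) := by
  obtain ⟨x, y, t⟩ := e
  cases t <;> simp [Plain.fst, Plain.side₁, Inc]

theorem inc_side_snd (e : Edg) : Inc (Plain.snd e) (Plain.side₁ e) := by
  obtain ⟨x, y, t⟩ := e
  cases t <;> simp [Plain.snd, Plain.side₁, Inc]

theorem outer_of_avoid {n : ℕ} {F : Finset Edg} (hF : F ⊆ Plain.edges n) {v p q : ℤ × ℤ}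
    (hp : p ∉ Plain.cluster F v) (hq : q ∉ Plain.box n) (h : Reach (Avo F v) p q) :
    ∀ f, Inc p f → Plain.Outer F v f := by
  unfold Reach at h
  induction h using Relation.ReflTransGen.head_induction_on with
  | refl =>
    intro f hf
    have h1 : Plain.Outer F v (q.1, q.2) := by
      apply TOPB_far hF
      unfold Plain.box at hq
      rw [Finset.mem_product, Finset.mem_Icc, Finset.mem_Icc] at hq
      simp only
      omega
    exact (faces_ne hp hf).trans h1
  | @head a b hab _ ih =>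
    intro f hf
    obtain ⟨e, he, hc⟩ := hab
    have hb : b ∉ Plain.cluster F v := by
      rw [Plain.mem_cluster]
      rcases hc with ⟨_, h2⟩ | ⟨h1, _⟩
      · rw [← h2]; exact he.2
      · rw [← h1]; exact he.1
    have hi : Inc a (Plain.side₁ e) ∧ Inc b (Plain.side₁ e) := by
      rcases hc with ⟨h1, h2⟩ | ⟨h1, h2⟩
      · rw [← h1, ← h2, ← Plain.fst_eq, ← Plain.snd_eq]
        exact ⟨inc_side_fst e, inc_side_snd e⟩
      · rw [← h1, ← h2, ← Plain.fst_eq, ← Plain.snd_eq]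
        exact ⟨inc_side_snd e, inc_side_fst e⟩
    exact (faces_joined hp hf hi.1).trans (ih hb _ hi.2)

theorem bdry_of_avoid {n : ℕ} (hn : 0 < n) {F : Finset Edg} (hF : F ⊆ Plain.edges n)
    {v : ℤ × ℤ} (hv : v ∈ Plain.box n) {p' p q : ℤ × ℤ} (hp' : p' ∈ Plain.cluster F v)
    {G : Set Edg} (ha : Adj G p' p) (hp : p ∉ Plain.cluster F v) (hq : q ∉ Plain.box n)
    (h : Reach (Avo F v) p q) : pt n p' ∈ outerBoundary n F v := by
  obtain ⟨e, he, hc⟩ := ha
  have hi : Inc p' (Plain.side₁ e) ∧ Inc p (Plain.side₁ e) := by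
    rcases hc with ⟨h1, h2⟩ | ⟨h1, h2⟩
    · rw [← h1, ← h2, ← Plain.fst_eq, ← Plain.snd_eq]
      exact ⟨inc_side_fst e, inc_side_snd e⟩
    · rw [← h1, ← h2, ← Plain.fst_eq, ← Plain.snd_eq]
      exact ⟨inc_side_snd e, inc_side_fst e⟩
  exact RNG_bdry hn hF hv hp' hi.1 (outer_of_avoid hF hp hq h _ hi.2)

/-- a path to the outside of the box all of whose vertices are not on the outer boundary avoids the
cluster -/
theorem avoid_of_path {n : ℕ} (hn : 0 < n) {F : Finset Edg} (hF : F ⊆ Plain.edges n)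
    {v : ℤ × ℤ} (hv : v ∈ Plain.box n) {P : ℤ × ℤ → Prop}
    (hP : ∀ u, P u → pt n u ∉ outerBoundary n F v) {w q : ℤ × ℤ} (hq : q ∉ Plain.box n)
    (h : Reach {e | P (src e) ∧ P (tgt e)} w q) :
    w ∉ Plain.cluster F v ∧ Reach (Avo F v) w q := by
  unfold Reach at h
  induction h using Relation.ReflTransGen.head_induction_on with
  | refl => exact ⟨fun h => hq (TOPB_cluster hF hv h), Reach.refl _ _⟩
  | @head a b hab _ ih =>
    obtain ⟨hb, hbq⟩ := ih
    have hPa : P a := by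
      obtain ⟨e, he, ⟨h1, _⟩ | ⟨_, h2⟩⟩ := hab
      · rw [← h1]; exact he.1
      · rw [← h2]; exact he.2
    have ha : a ∉ Plain.cluster F v := fun h =>
      hP a hPa (bdry_of_avoid hn hF hv h hab hb hq hbq)
    refine ⟨ha, Reach.trans (Adj.reach ?_) hbq⟩
    obtain ⟨e, he, hc⟩ := hab
    refine ⟨e, ?_, hc⟩
    rw [Plain.mem_cluster] at ha hb
    rcases hc with ⟨h1, h2⟩ | ⟨h1, h2⟩
    · exact ⟨by rw [h1]; exact ha, by rw [h2]; exact hb⟩
    · exact ⟨by rw [h1]; exact hb, by rw [h2]; exact ha⟩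

/-! ### Lattice paths along a curve -/

theorem hline (Q : ℤ × ℤ → Prop) (x y : ℤ) (k : ℕ) (h : ∀ i : ℕ, i ≤ k → Q (x + i, y)) :
    Reach {e | Q (src e) ∧ Q (tgt e)} (x, y) (x + k, y) := by
  induction k with
  | zero => simp only [Nat.cast_zero, add_zero]; exact Reach.refl _ _
  | succ k ih =>
    refine (ih fun i hi => h i (by omega)).trans (Adj.reach ⟨(x + k, y, true), ⟨?_, ?_⟩, Or.inl ⟨rfl, ?_⟩⟩)
    · exact h k (by omega)
    · rw [tgt_true]
      have := h (k + 1) le_rfl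
      push_cast at this
      rwa [add_assoc]
    · rw [tgt_true]; push_cast; rw [add_assoc]

theorem vline (Q : ℤ × ℤ → Prop) (x y : ℤ) (k : ℕ) (h : ∀ i : ℕ, i ≤ k → Q (x, y + i)) :
    Reach {e | Q (src e) ∧ Q (tgt e)} (x, y) (x, y + k) := by
  induction k with
  | zero => simp only [Nat.cast_zero, add_zero]; exact Reach.refl _ _
  | succ k ih =>
    refine (ih fun i hi => h i (by omega)).trans (Adj.reach ⟨(x, y + k, false), ⟨?_, ?_⟩, Or.inl ⟨rfl, ?_⟩⟩)
    · exact h k (by omega)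
    · rw [tgt_false]
      have := h (k + 1) le_rfl
      push_cast at this
      rwa [add_assoc]
    · rw [tgt_false]; push_cast; rw [add_assoc]

/-- two vertices are joined by a path in any set which contains the rectangle they span -/
theorem rect_path (Q : ℤ × ℤ → Prop) (a b : ℤ × ℤ)
    (h : ∀ u : ℤ × ℤ, (min a.1 b.1 ≤ u.1 ∧ u.1 ≤ max a.1 b.1) →
      (min a.2 b.2 ≤ u.2 ∧ u.2 ≤ max a.2 b.2) → Q u) :
    Reach {e | Q (src e) ∧ Q (tgt e)} a b := by
  obtain ⟨a1, a2⟩ := a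
  obtain ⟨b1, b2⟩ := b
  simp only at h
  have h1 : Reach {e | Q (src e) ∧ Q (tgt e)} (a1, a2) (b1, a2) := by
    rcases le_total a1 b1 with hab | hab
    · have := hline Q a1 a2 (b1 - a1).toNat (fun i hi => h (a1 + i, a2) (by simp only; omega)
        (by simp only; omega))
      rwa [Int.toNat_of_nonneg (by omega), add_sub_cancel] at this
    · have := hline Q b1 a2 (a1 - b1).toNat (fun i hi => h (b1 + i, a2) (by simp only; omega)
        (by simp only; omega))
      rw [Int.toNat_of_nonneg (by omega), add_sub_cancel] at this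
      exact this.symm
  have h2 : Reach {e | Q (src e) ∧ Q (tgt e)} (b1, a2) (b1, b2) := by
    rcases le_total a2 b2 with hab | hab
    · have := vline Q b1 a2 (b2 - a2).toNat (fun i hi => h (b1, a2 + i) (by simp only; omega)
        (by simp only; omega))
      rwa [Int.toNat_of_nonneg (by omega), add_sub_cancel] at this
    · have := vline Q b1 b2 (a2 - b2).toNat (fun i hi => h (b1, b2 + i) (by simp only; omega)
        (by simp only; omega))
      rw [Int.toNat_of_nonneg (by omega), add_sub_cancel] at this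
      exact this.symm
  exact h1.trans h2

/-- the lattice point below a point of the plane -/
noncomputable def rd (n : ℕ) (z : ℂ) : ℤ × ℤ := (⌊n * z.re⌋, ⌊n * z.im⌋)

theorem pt_dist_le {n : ℕ} (hn : 0 < n) {u : ℤ × ℤ} {z : ℂ} {a b : ℝ} (h1 : |(u.1 : ℝ) - n * z.re| ≤ a)
    (h2 : |(u.2 : ℝ) - n * z.im| ≤ b) : dist (pt n u) z ≤ (a + b) / n := by
  have hn' : (0:ℝ) < n := by exact_mod_cast hn
  rw [dist_eq_norm]
  refine (Complex.norm_le_abs_re_add_abs_im _).trans ?_
  rw [Complex.sub_re, Complex.sub_im, pt_re, pt_im, add_div]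
  have e1 : (u.1 : ℝ) * (1 / n) - z.re = ((u.1 : ℝ) - n * z.re) / n := by field_simp
  have e2 : (u.2 : ℝ) * (1 / n) - z.im = ((u.2 : ℝ) - n * z.im) / n := by field_simp
  rw [e1, e2, abs_div, abs_div, abs_of_pos hn']
  exact add_le_add (div_le_div_of_nonneg_right h1 hn'.le) (div_le_div_of_nonneg_right h2 hn'.le)

theorem rd_dist {n : ℕ} (hn : 0 < n) (z : ℂ) : dist (pt n (rd n z)) z ≤ 2 / n := by
  have h := pt_dist_le hn (u := rd n z) (z := z) (a := 1) (b := 1) ?_ ?_
  · norm_num at h ⊢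
    exact h
  · unfold rd
    simp only
    rw [abs_le]
    have := Int.floor_le (n * z.re)
    have := Int.lt_floor_add_one (n * z.re)
    constructor <;> linarith
  · unfold rd
    simp only
    rw [abs_le]
    have := Int.floor_le (n * z.im)
    have := Int.lt_floor_add_one (n * z.im)
    constructor <;> linarith

theorem between {a b u : ℤ} {x y n : ℝ} (ha : |(a : ℝ) - x| ≤ 1) (hb : |(b : ℝ) - y| ≤ 1)
    (hxy : |x - y| ≤ n) (h1 : min a b ≤ u) (h2 : u ≤ max a b) : |(u : ℝ) - x| ≤ 1 + n := by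
  rw [abs_le] at ha hb hxy ⊢
  have h1' : min (a : ℝ) b ≤ u := by exact_mod_cast h1
  have h2' : (u : ℝ) ≤ max (a : ℝ) b := by exact_mod_cast h2
  rcases min_le_iff.1 h1' with h3 | h3 <;> rcases le_max_iff.1 h2' with h4 | h4 <;>
    constructor <;> linarith [ha.1, ha.2, hb.1, hb.2, hxy.1, hxy.2]

theorem rd_path {n : ℕ} (hn : 0 < n) {z w : ℂ} (h : dist z w ≤ 1 / n) (Q : ℤ × ℤ → Prop)
    (hQ : ∀ u, dist (pt n u) z ≤ 4 / n → Q u) :
    Reach {e | Q (src e) ∧ Q (tgt e)} (rd n z) (rd n w) := by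
  have hn' : (0:ℝ) < n := by exact_mod_cast hn
  have key : ∀ x : ℝ, |((⌊(n:ℝ) * x⌋ : ℤ) : ℝ) - n * x| ≤ 1 := by
    intro x
    rw [abs_le]
    have := Int.floor_le (n * x)
    have := Int.lt_floor_add_one (n * x)
    constructor <;> linarith
  have h1 : |(n:ℝ) * z.re - n * w.re| ≤ 1 := by
    rw [← mul_sub, abs_mul, abs_of_pos hn', ← Complex.sub_re]
    rw [dist_eq_norm, le_div_iff₀ hn'] at h
    have := Complex.abs_re_le_norm (z - w)
    nlinarith
  have h2 : |(n:ℝ) * z.im - n * w.im| ≤ 1 := by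
    rw [← mul_sub, abs_mul, abs_of_pos hn', ← Complex.sub_im]
    rw [dist_eq_norm, le_div_iff₀ hn'] at h
    have := Complex.abs_im_le_norm (z - w)
    nlinarith
  apply rect_path
  intro u hu1 hu2
  apply hQ
  have h3 : |(u.1 : ℝ) - n * z.re| ≤ 1 + 1 := between (key z.re) (key w.re) h1 hu1.1 hu1.2
  have h4 : |(u.2 : ℝ) - n * z.im| ≤ 1 + 1 := between (key z.im) (key w.im) h2 hu2.1 hu2.2
  have h5 := pt_dist_le hn h3 h4
  norm_num at h5 ⊢
  exact h5

/-- a lattice path which follows a curve -/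
theorem follow {n : ℕ} (hn : 0 < n) (g : C(unitInterval, ℂ)) (Q : ℤ × ℤ → Prop)
    (hQ : ∀ u t, dist (pt n u) (g t) ≤ 4 / n → Q u) :
    Reach {e | Q (src e) ∧ Q (tgt e)} (rd n (g 0)) (rd n (g 1)) := by
  have hn' : (0:ℝ) < n := by exact_mod_cast hn
  have huc := CompactSpace.uniformContinuous_of_continuous g.continuous
  obtain ⟨δ, hδ, hd⟩ := Metric.uniformContinuous_iff.1 huc (1 / n) (by positivity)
  obtain ⟨N, hN⟩ := exists_nat_gt (1 / δ)
  have hN0 : (0:ℝ) < N := lt_trans (by positivity) hN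
  have hNδ : 1 / (N:ℝ) < δ := by
    rw [div_lt_iff₀ hδ] at hN
    rw [div_lt_iff₀ hN0]
    linarith
  set τ : ℕ → unitInterval := fun i => Set.projIcc 0 1 zero_le_one ((i : ℝ) / N) with hτ
  have hstep : ∀ i : ℕ, dist (g (τ i)) (g (τ (i + 1))) ≤ 1 / n := by
    intro i
    refine (hd ?_).le
    rw [Subtype.dist_eq, Real.dist_eq]
    refine (Set.abs_projIcc_sub_projIcc (zero_le_one (α := ℝ))).trans_lt ?_
    have : (i : ℝ) / N - ((i + 1 : ℕ) : ℝ) / N = -(1 / N) := by
      push_cast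
      ring
    rw [this, abs_neg, abs_of_pos (by positivity)]
    exact hNδ
  have key : ∀ i : ℕ, Reach {e | Q (src e) ∧ Q (tgt e)} (rd n (g (τ 0))) (rd n (g (τ i))) := by
    intro i
    induction i with
    | zero => exact Reach.refl _ _
    | succ i ih => exact ih.trans (rd_path hn (hstep i) Q fun u hu => hQ u _ hu)
  have h0 : τ 0 = 0 := by
    simp only [hτ, Nat.cast_zero, zero_div]
    exact Set.projIcc_left (zero_le_one (α := ℝ))
  have h1 : τ N = 1 := by
    simp only [hτ]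
    rw [div_self hN0.ne']
    exact Set.projIcc_right (zero_le_one (α := ℝ))
  have := key N
  rwa [h0, h1] at this

/-! ### The deterministic part -/

theorem t_rng : St_RNG := t_RNG t_ORB t_POL

theorem EvO_open (z : ℂ) (r ρ ζ : ℝ) : IsOpen (EvO z r ρ ζ) := by
  rw [Metric.isOpen_iff]
  rintro c ⟨⟨s, hs⟩, ⟨t, ht⟩, g, hg0, hg1, hg⟩
  -- the clearance is attained
  have hcont : Continuous (fun x : unitInterval × unitInterval => dist (g x.1) (c.path x.2)) :=
    (g.continuous.comp continuous_fst).dist (c.path.continuous.comp continuous_snd)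
  obtain ⟨x0, -, hx0⟩ := isCompact_univ.exists_isMinOn (Set.univ_nonempty) hcont.continuousOn
  have hx1 : ∀ a b, dist (g x0.1) (c.path x0.2) ≤ dist (g a) (c.path b) :=
    fun a b => hx0 (Set.mem_univ (a, b))
  set m : ℝ := dist (g x0.1) (c.path x0.2) with hm
  have hmζ : ζ < m := hg _ _
  set ε : ℝ := min (m - ζ) (min (r - dist (c.path s) z) (dist (c.path t) z - ρ)) with hε
  have hpos : 0 < ε := lt_min (by linarith) (lt_min (by linarith) (by linarith))
  have e0 : ε ≤ m - ζ := min_le_left _ _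
  have e1 : ε ≤ r - dist (c.path s) z := (min_le_right _ _).trans (min_le_left _ _)
  have e2 : ε ≤ dist (c.path t) z - ρ := (min_le_right _ _).trans (min_le_right _ _)
  refine ⟨ε, hpos, fun c' hcc' => ?_⟩
  rw [Metric.mem_ball, Curve.dist_def, cdist_eq] at hcc'
  obtain ⟨φ, hφ⟩ := exists_lt_of_ciInf_lt hcc'
  have key : ∀ x : unitInterval, dist (c'.path (φ.symm x)) (c.path x) < ε := by
    intro x
    have h := ContinuousMap.dist_apply_le_dist (f := c'.path) (g := rep c.path φ) (φ.symm x)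
    rw [rep_apply, OrderIso.apply_symm_apply] at h
    exact lt_of_le_of_lt h hφ
  refine ⟨⟨φ.symm s, ?_⟩, ⟨φ.symm t, ?_⟩, g, hg0, hg1, fun a b => ?_⟩
  · have h3 := dist_triangle (c'.path (φ.symm s)) (c.path s) z
    have h4 := key s
    linarith
  · have h3 := dist_triangle_left (c.path t) z (c'.path (φ.symm t))
    have h4 := key t
    linarith
  · have h4 := key (φ a)
    rw [OrderIso.symm_apply_apply] at h4
    have h3 := dist_triangle (g b) (c'.path a) (c.path (φ a))
    have h5 := hx1 b (φ a)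
    linarith

theorem BX_mono {c : ℤ × ℤ} {d k : ℕ} (h : d ≤ k) {v : Vtx} (hv : BX c d v) : BX c k v := by
  unfold BX inR at hv ⊢
  omega

theorem not_box_of_norm {n : ℕ} (hn : 0 < n) {u : ℤ × ℤ} (h : 2 < ‖pt n u‖) :
    u ∉ Plain.box n := by
  intro hu
  obtain ⟨⟨h1, h2⟩, h3, h4⟩ := CPT_pt_box hn hu
  have := Complex.norm_le_abs_re_add_abs_im (pt n u)
  rw [abs_of_nonneg h1, abs_of_nonneg h3] at this
  linarith

theorem detO {z : ℂ} {r d ζ : ℝ} {n : ℕ} (hn : 0 < n) (hδr : 1 / (n : ℝ) ≤ r)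
    (hd : 256 * r ≤ d) (hζ : 4 / (n : ℝ) ≤ ζ) (hball : Metric.ball z d ⊆ Sq)
    {F : Finset Edg} (hF : F ⊆ Plain.edges n) {v : ℤ × ℤ} (hv : v ∈ Plain.box n) {c : Curve}
    (hT : IsTrace n F v c) (hE : c ∈ EvO z r (d / 2) ζ) :
    A3v (ctc (1 / n) z) (⌈r / (1 / (n : ℝ))⌉₊ + 3 + 2) (⌊d / (8 * (1 / (n : ℝ)))⌋₊ - 2) ↑F := by
  have hδ : (0:ℝ) < 1 / n := by positivity
  have hn' : (0:ℝ) < n := by exact_mod_cast hn
  obtain ⟨⟨s, hs⟩, ⟨t, ht⟩, g, hg0, hg1, hg⟩ := hE
  have hrange := (t_rng n F v c hn hF hv hT).2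
  obtain ⟨σ, N, hN, hσ1, hσ2, hper, hmin, hpath⟩ := hT
  have hr : 0 < r := hδ.trans_le hδr
  have hd0 : 0 < d := by linarith
  have hst' : ∀ k < N, dist (pt n (orb (↑F) σ k).1) (pt n (orb (↑F) σ (k + 1)).1) ≤ 1 / (n : ℝ) :=
    fun k _ => pt_step' hn _ σ k
  obtain ⟨i, hiN, -, hi⟩ := poly_close hN hst' s
  obtain ⟨j, hjN, -, hj⟩ := poly_close hN hst' t
  rw [← hpath] at hi hj
  have hci := (RNG_state hσ1 hσ2 i).1
  have hcj := (RNG_state hσ1 hσ2 j).1
  rw [Plain.mem_cluster] at hci hcj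
  obtain ⟨s1, s2, s3, _⟩ := sizes hδ hδr hd
  -- positions
  have pi : dist (pt n (orb (↑F) σ i).1) z ≤ r + 1 / n := by
    have := dist_triangle_left (pt n (orb (↑F) σ i).1) z (c.path s)
    linarith
  have pj : d / 2 - 1 / n < dist (pt n (orb (↑F) σ j).1) z := by
    have := dist_triangle (c.path t) (pt n (orb (↑F) σ j).1) z
    linarith
  have hk : (⌊d / (8 * (1 / (n : ℝ)))⌋₊ : ℝ) ≤ d / (8 * (1 / (n : ℝ))) :=
    Nat.floor_le (by positivity)
  have h6 : 2 * (1 / (n : ℝ)) * (⌊d / (8 * (1 / (n : ℝ)))⌋₊ : ℝ) ≤ d / 4 := by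
    calc 2 * (1 / (n : ℝ)) * (⌊d / (8 * (1 / (n : ℝ)))⌋₊ : ℝ) ≤
          2 * (1 / (n : ℝ)) * (d / (8 * (1 / (n : ℝ)))) :=
          mul_le_mul_of_nonneg_left hk (by positivity)
      _ = d / 4 := by
          have : (n : ℝ) ≠ 0 := by positivity
          field_simp
          norm_num
  have hnb : ∀ u : ℤ × ℤ, d / 4 + 2 * (1 / n) < dist (pt n u) z →
      ¬ BX (ctc (1 / n) z) (⌊d / (8 * (1 / (n : ℝ)))⌋₊ - 2) u := by
    intro u hu hin
    have h5 := box_nearC hn (BX_mono (Nat.sub_le _ _) hin)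
    linarith
  -- the path
  have hd2 : d ≤ 2 ∧ ‖z‖ ≤ 2 := by
    have hz := hball (Metric.mem_ball_self hd0)
    have hw : z + ((d / 2 : ℝ) : ℂ) ∈ Sq := by
      apply hball
      rw [Metric.mem_ball, Complex.dist_eq, add_sub_cancel_left, Complex.norm_real,
        Real.norm_eq_abs, abs_of_pos (by linarith)]
      linarith
    have h1 := hw.2.1
    rw [Complex.add_re, Complex.ofReal_re] at h1
    refine ⟨by linarith [hz.1], ?_⟩
    have := Complex.norm_le_abs_re_add_abs_im z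
    rw [abs_of_pos hz.1, abs_of_pos hz.2.2.1] at this
    linarith [hz.2.1, hz.2.2.2]
  have hq := rd_dist hn (g 1)
  have hw := rd_dist hn (g 0)
  have h2n : 2 / (n : ℝ) = 2 * (1 / n) := by ring
  rw [h2n] at hq hw
  have hn1 : 1 / (n : ℝ) ≤ 1 / 128 := by linarith
  have hqn : 8 < ‖pt n (rd n (g 1))‖ := by
    have h7 := norm_sub_norm_le (g 1) (pt n (rd n (g 1)))
    rw [← dist_eq_norm, dist_comm] at h7
    linarith
  have hqb : rd n (g 1) ∉ Plain.box n := not_box_of_norm hn (by linarith)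
  have hP : ∀ u, (∃ t, dist (pt n u) (g t) ≤ 4 / n) → pt n u ∉ outerBoundary n F v := by
    rintro u ⟨t', ht'⟩ hu
    rw [← hrange] at hu
    obtain ⟨s', hs'⟩ := hu
    have := hg s' t'
    rw [hs', dist_comm] at this
    linarith
  obtain ⟨-, hav⟩ := avoid_of_path hn hF hv hP hqb
    (follow hn g (fun u => ∃ t, dist (pt n u) (g t) ≤ 4 / n) fun u t h => ⟨t, h⟩)
  refine A3v_of (v := v) (x := (orb (↑F) σ i).1) (x' := (orb (↑F) σ j).1) (w := rd n (g 0))
    (w' := rd n (g 1)) (by omega) ?_ hci ?_ hcj ?_ ?_ hav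
  · exact BX_mono (by omega) (near_boxC hn pi)
  · exact hnb _ (by linarith)
  · have h7 : dist (pt n (rd n (g 0))) z ≤ (r + 1 / n) + 1 / n := by
      have := dist_triangle (pt n (rd n (g 0))) (g 0) z
      linarith
    have h8 := near_boxC hn h7
    have h9 : (r + 1 / n) / (1 / (n : ℝ)) = r / (1 / (n : ℝ)) + 1 := by
      field_simp
    rw [h9, Nat.ceil_add_one (by positivity)] at h8
    exact BX_mono (by omega) h8
  · apply hnb
    have h7 := norm_sub_norm_le (pt n (rd n (g 1))) z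
    rw [← dist_eq_norm] at h7
    linarith [hd2.1, hd2.2]

end Pool.Agent.W2helper75.OB
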