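import Pool.Agent.W2helper75.OB.Det
import Pool.Agent.W2helper75.OB.Geo
import Pool.Agent.Y989.FR.T_LG
import Pool.Agent.Y989.FR.T_QC
import Pool.Agent.Y989.FR.T_CHN

/-!
# The outer boundary of the limits has dimension `4/3` with probability bounded below
-/

set_option autoImplicit false

namespace Pool.Agent.W2helper75.OB

open H974 H12S Finset H389NS H984P H984N H342P H342L H342T
open MeasureTheory Filter Topology Pool.Agent.W92.DP Pool.Agent.W822.PD Pool.Agent.W978.PDUL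
open Pool.Agent.W424.OD Pool.Agent.W462.DPL Pool.Agent.H389R2.Dim
open Pool.Agent.Y989.FR (Qc Awy S_CHN S_QC)
open Pool.Agent.Y989.FR.LG (AA AA_mono isClosed_good_AA isCompact_AA)
open scoped ENNReal NNReal

/-- The conclusion of `good`. -/
def GoodB (M B n0 : ℕ) (c0 p : ℝ) : Prop :=
  ∀ t : ℝ, 0 < t → t < 4 / 3 → ∃ E0 : ℝ, 0 < E0 ∧ ∀ n : ℕ, n0 ≤ n →
    p ≤ Pr (fun _ => (1 / 2 : ℝ)) (RE 0 n 0 n) (Gd c0 E0 t M B n)

theorem Qc_rep {M κ R e : ℝ} {B N : ℕ} {f : C(unitInterval, ℂ)} (φ : unitInterval ≃o unitInterval)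
    {z : ℂ} (h : (f, z) ∈ Qc M κ R e B N) : (rep f φ, z) ∈ Qc M κ R e B N := by
  obtain ⟨h1, ⟨s, hs⟩, x, h2, h3, h4, h5, h6⟩ := h
  refine ⟨h1, ⟨φ.symm s, ?_⟩, x, h2, h3, h4, h5, fun i t => ?_⟩
  · show dist ((rep f φ) (φ.symm s)) z ≤ e
    rw [rep_apply, OrderIso.apply_symm_apply]
    exact hs
  · show dist (x i) z ^ B ≤ M * dist (x i) ((rep f φ) t) + e
    rw [rep_apply]
    exact h6 i (φ t)

theorem isClosed_good_curveO {t δ c e : ℝ} {K : Set ℂ} {Q : ℕ → Set (C(unitInterval, ℂ) × ℂ)}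
    (hQ : ∀ k, IsClosed (Q k)) (hK : IsCompact K)
    (hinv : ∀ k f (φ : unitInterval ≃o unitInterval) z, (f, z) ∈ Q k → (rep f φ, z) ∈ Q k) :
    IsClosed {γ : Curve | Good t δ c (AA K Q e γ.path)} := by
  refine isClosed_curve (P := fun f => Good t δ c (AA K Q e f)) (isClosed_good_AA hQ hK) ?_
  intro f φ h
  refine h.mono ?_
  rintro z ⟨hz, h1⟩
  exact ⟨hz, fun k hk => hinv k f φ z (h1 k hk)⟩

/-- one exponent -/
theorem one_exp (hqc : S_QC) (hchn : S_CHN) {M B n0 : ℕ} {c0 p : ℝ} (hM : 16 ≤ M) (hB : 1 ≤ B)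
    (hc0 : 0 < c0) (hp0 : 0 < p) (hp1 : p ≤ 1) (hG : GoodB M B n0 c0 p)
    {sel : (n : ℕ) → Finset Plain.Edge → ℤ × ℤ} {γ : (n : ℕ) → Finset Plain.Edge → Curve}
    (hT : Tr sel γ) {k : ℕ → ℕ} (hk : Tendsto k atTop atTop) {μ : ProbabilityMeasure Curve}
    (hμ : Tendsto (fun i => lawOf (k i) (γ (k i))) atTop (𝓝 μ)) {t : ℝ} (ht : 0 < t)
    (ht1 : t < 4 / 3) :
    ∃ S : Set Curve, MeasurableSet S ∧ (μ : Measure Curve) S ≤ ENNReal.ofReal (1 - p) ∧
      ∀ c : Curve, Set.range c.path ⊆ Sqc → c ∉ S →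
        ENNReal.ofReal t ≤ dimH (oB (Set.range c.path)) := by
  obtain ⟨E0, hE0, hGt⟩ := hG t ht ht1
  obtain ⟨M', hM'⟩ : ∃ M' : ℝ, M' = 2 ^ B * M * 16 ^ (B - 1) := ⟨_, rfl⟩
  have hMr : (0:ℝ) < M := by
    have : 0 < M := by omega
    exact_mod_cast this
  have hM'0 : 0 < M' := by rw [hM']; positivity
  obtain ⟨NN, hNN⟩ := Classical.axiomOfChoice (fun k : ℕ =>
    hchn 8 (1 / ((k : ℝ) + 1)) (by positivity))
  set ct : ℝ := 2 ^ (-t) / (E0 / c0 ^ 2) with hct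
  have hct0 : 0 < ct := by positivity
  set Q : ℕ → Set (C(unitInterval, ℂ) × ℂ) :=
    fun k => Qc M' 2 8 (1 / ((k : ℝ) + 1)) B (NN k) with hQdef
  have hQ : ∀ k, IsClosed (Q k) := fun k => hqc _ _ _ _ _ _
  have hK := isCompact_Sqc
  have hclosed : ∀ ε' : ℝ, IsClosed {c : Curve | Good t ε' ct (AA Sqc Q ε' c.path)} :=
    fun ε' => isClosed_good_curveO hQ hK fun k f φ z h => Qc_rep φ h
  have hopen : ∀ ε' : ℝ, IsOpen {c : Curve | ¬ Good t ε' ct (AA Sqc Q ε' c.path)} :=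
    fun ε' => (hclosed ε').isOpen_compl
  -- the lattice bound
  have h1 : ∀ ε' : ℝ, 0 < ε' → ∀ᶠ i in atTop, (lawOf (k i) (γ (k i)) : Measure Curve)
      {c : Curve | ¬ Good t ε' ct (AA Sqc Q ε' c.path)} ≤ ENNReal.ofReal (1 - p) := by
    intro ε' hε'
    obtain ⟨n1, hn1⟩ := exists_nat_gt (4 / ε')
    obtain ⟨n2, hn2⟩ := exists_nat_gt (M' / ε')
    have hev : ∀ᶠ i in atTop, max (max n0 n1) (max n2 16) ≤ k i := tendsto_atTop.mp hk _
    filter_upwards [hev] with i hi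
    rw [max_le_iff, max_le_iff, max_le_iff] at hi
    obtain ⟨⟨hi0, hi1⟩, hi2, hi3⟩ := hi
    have hki : 0 < k i := by omega
    have hkpos : (0:ℝ) < k i := by exact_mod_cast hki
    have hk1 : (n1 : ℝ) ≤ k i := by exact_mod_cast hi1
    have hk2 : (n2 : ℝ) ≤ k i := by exact_mod_cast hi2
    rw [lawOf_apply _ _ (hopen ε').measurableSet]
    apply ENNReal.ofReal_le_ofReal
    have h2 := hGt (k i) hi0
    have h3 : Plain.prob (k i) (fun F => γ (k i) F ∈
        {c : Curve | ¬ Good t ε' ct (AA Sqc Q ε' c.path)}) ≤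
        Pr (fun _ => (1 / 2 : ℝ)) (RE 0 (k i) 0 (k i))
          (fun F => ¬ Gd c0 E0 t M B (k i) F) := by
      refine Plain.prob_le_of_pr ?_
      intro F hF hbad hgd
      apply hbad
      refine good_of_Gd hi3 hF (hT.1 _ _ hki hF) (hT.2 _ _ hki hF) hB hgd hc0 hE0 ht hM'0.le
        (le_of_eq hM'.symm) ?_ ?_ hNN
      · rw [div_le_iff₀ hkpos]
        rw [div_lt_iff₀ hε'] at hn1
        nlinarith
      · rw [mul_one_div, div_le_iff₀ hkpos]
        rw [div_lt_iff₀ hε'] at hn2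
        nlinarith
    refine h3.trans ?_
    rw [Pr_not]
    linarith
  have h2 : ∀ ε' : ℝ, 0 < ε' → (μ : Measure Curve)
      {c : Curve | ¬ Good t ε' ct (AA Sqc Q ε' c.path)} ≤ ENNReal.ofReal (1 - p) := by
    intro ε' hε'
    refine (ProbabilityMeasure.le_liminf_measure_open_of_tendsto hμ (hopen ε')).trans ?_
    exact liminf_le_of_frequently_le (h1 ε' hε').frequently
  set Bd : ℕ → Set Curve := fun n =>
    {c : Curve | ¬ Good t (1 / ((n : ℝ) + 1)) ct (AA Sqc Q (1 / ((n : ℝ) + 1)) c.path)} with hBd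
  have hmono : Monotone Bd := by
    intro n n' hnn p hp hG
    apply hp
    have h3 := hG.anti (Nat.one_div_le_one_div (α := ℝ) hnn)
    exact h3.mono (AA_mono (Nat.one_div_le_one_div hnn) p.path)
  refine ⟨⋃ n : ℕ, Bd n, MeasurableSet.iUnion fun n => (hopen _).measurableSet, ?_, ?_⟩
  · rw [hmono.measure_iUnion]
    exact iSup_le fun n => h2 _ (by positivity)
  · intro c hc hcon
    simp only [hBd, Set.mem_iUnion, Set.mem_ofPred_eq, not_exists, not_not] at hcon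
    have h4 : ∀ δ' : ℝ, 0 < δ' → Good t δ' ct (AA Sqc Q 0 c.path) := by
      intro δ' hδ'
      apply Pool.Agent.Y989.FR.LG.good_zero hQ hK
      intro n
      obtain ⟨m, hm⟩ := exists_nat_one_div_lt hδ'
      have h5 := hcon (max n m)
      have h6 : (1 : ℝ) / (((max n m : ℕ) : ℝ) + 1) ≤ 1 / ((n : ℝ) + 1) :=
        Nat.one_div_le_one_div (le_max_left _ _)
      have h7 : (1 : ℝ) / (((max n m : ℕ) : ℝ) + 1) ≤ 1 / ((m : ℝ) + 1) :=
        Nat.one_div_le_one_div (le_max_right _ _)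
      exact (h5.mono (AA_mono h6 c.path)).anti (h7.trans hm.le)
    refine (le_dimH_of_good ht hct0 (isCompact_AA hQ hK c.path) h4).trans (dimH_mono ?_)
    rintro z ⟨-, hz⟩
    exact geoO hM'0 hc (fun k => hz k (by positivity))

theorem e43 : (4 / 3 : ℝ≥0∞) = ENNReal.ofReal (4 / 3) := by
  rw [ENNReal.ofReal_div_of_pos (by norm_num)]; norm_num

/-- **the outer boundary has dimension `4/3` with probability at least `p`** -/
theorem lim_pos (hqc : S_QC) (hchn : S_CHN) (hU : U3) (hHB : PD_HB) {M B n0 : ℕ} {c0 p : ℝ}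
    (hM : 16 ≤ M) (hB : 1 ≤ B) (hc0 : 0 < c0) (hp0 : 0 < p) (hp1 : p ≤ 1)
    (hG : GoodB M B n0 c0 p) {sel : (n : ℕ) → Finset Plain.Edge → ℤ × ℤ}
    {γ : (n : ℕ) → Finset Plain.Edge → Curve} (hT : Tr sel γ) {k : ℕ → ℕ}
    (hk : Tendsto k atTop atTop) {μ : ProbabilityMeasure Curve}
    (hμ : Tendsto (fun i => lawOf (k i) (γ (k i))) atTop (𝓝 μ)) :
    (∀ᵐ c : Curve ∂(μ : Measure Curve), dimH (oB (Set.range c.path)) ≤ 4 / 3) ∧
    (μ : Measure Curve) {c : Curve | dimH (oB (Set.range c.path)) ≠ 4 / 3} ≤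
      ENNReal.ofReal (1 - p) := by
  have hup := ul3 hU hHB hT hk hμ
  refine ⟨hup, ?_⟩
  have hsq : ∀ᵐ c : Curve ∂(μ : Measure Curve), Set.range c.path ⊆ Sqc := by
    have := Pool.Agent.W597.PDBL.bl hHB sel γ hT k hk μ hμ 1 one_pos
    filter_upwards [this] with c hc
    exact hc.1
  have ht : ∀ j : ℕ, 0 < 4 / 3 - 1 / ((j : ℝ) + 2) ∧ 4 / 3 - 1 / ((j : ℝ) + 2) < 4 / 3 := by
    intro j
    have hj : (0 : ℝ) ≤ j := Nat.cast_nonneg j
    have h1 : 1 / ((j : ℝ) + 2) ≤ 1 / 2 := one_div_le_one_div_of_le (by norm_num) (by linarith)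
    have h2 : 0 < 1 / ((j : ℝ) + 2) := by positivity
    constructor <;> linarith
  choose S hSm hSp hS using fun j : ℕ =>
    one_exp hqc hchn hM hB hc0 hp0 hp1 hG hT hk hμ (ht j).1 (ht j).2
  set Z : Set Curve := {c | ¬ (Set.range c.path ⊆ Sqc ∧ dimH (oB (Set.range c.path)) ≤ 4 / 3)}
    with hZ
  have hZ0 : (μ : Measure Curve) Z = 0 := by
    have : ∀ᵐ c : Curve ∂(μ : Measure Curve),
        Set.range c.path ⊆ Sqc ∧ dimH (oB (Set.range c.path)) ≤ 4 / 3 := by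
      filter_upwards [hup, hsq] with c h1 h2
      exact ⟨h2, h1⟩
    exact ae_iff.1 this
  have hsub : {c : Curve | dimH (oB (Set.range c.path)) ≠ 4 / 3} ⊆
      Z ∪ ⋃ j0 : ℕ, ⋂ j : ℕ, S (j0 + j) := by
    intro c hc
    by_cases hcZ : c ∈ Z
    · exact Or.inl hcZ
    right
    simp only [hZ, Set.mem_ofPred_eq, not_not] at hcZ
    obtain ⟨h1, h2⟩ := hcZ
    have h3 : dimH (oB (Set.range c.path)) < 4 / 3 := lt_of_le_of_ne h2 hc
    have hlim : Tendsto (fun j : ℕ => ENNReal.ofReal (4 / 3 - 1 / ((j:ℝ) + 2))) atTop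
        (𝓝 (ENNReal.ofReal (4 / 3 - 0))) := by
      apply ENNReal.tendsto_ofReal
      apply tendsto_const_nhds.sub
      have h5 : Tendsto (fun j : ℕ => (j:ℝ) + 2) atTop atTop :=
        tendsto_atTop_add_const_right _ _ tendsto_natCast_atTop_atTop
      exact h5.const_div_atTop 1
    rw [sub_zero, ← e43] at hlim
    obtain ⟨j0, hj0⟩ := eventually_atTop.1 ((tendsto_order.1 hlim).1 _ h3)
    refine Set.mem_iUnion.2 ⟨j0, Set.mem_iInter.2 fun j => ?_⟩
    by_contra hcon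
    exact absurd (hS (j0 + j) c h1 hcon) (not_le.2 (hj0 (j0 + j) (by omega)))
  refine (measure_mono hsub).trans ((measure_union_le _ _).trans ?_)
  rw [hZ0, zero_add]
  have hmono : Monotone fun j0 : ℕ => ⋂ j : ℕ, S (j0 + j) := by
    intro a b hab c hc
    rw [Set.mem_iInter] at hc ⊢
    intro j
    have := hc (b - a + j)
    rwa [show a + (b - a + j) = b + j by omega] at this
  rw [hmono.measure_iUnion]
  refine iSup_le fun j0 => ?_
  exact (measure_mono (Set.iInter_subset _ 0)).trans (hSp (j0 + 0))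

end Pool.Agent.W2helper75.OB
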