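import Pool.Agent.W801.AV.T_DET
import Pool.Agent.W801.AV.T_ONE
import Pool.Agent.Y989.FR.T_ONE3

/-!
# The one-point lower bound: accessible vertices from which a thick path starts
-/

set_option autoImplicit false

namespace Pool.Agent.W2helper75.OB

open H974 H973 H12S Finset H389NS H984P H984N H342P
open Pool.Agent.W801.AV
open Pool.Agent.W424.OD (mem_bdB_iff)
open Pool.Agent.Y989.FR (TkA cl Awy S_ACC S_THK)
open Pool.Agent.Y989.FR.ONE3 (reach_sh bdB_sh blk_sh sd_sh src_trl tgt_trl)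

/-- Thick path from distance `2` to distance `k` of `w`, which keeps away from `W`. -/
def Thk (M B k : ℕ) (w : Vtx) (W : Set Vtx) : Prop :=
  ∃ x ∈ bdB w 2, ∃ y ∈ bdB w k,
    Reach {e | e ∈ Pool.Agent.Y989.FR.AE w 2 k ∧ (∀ c ∈ W, Awy M B k w c (src e)) ∧
      ∀ c ∈ W, Awy M B k w c (tgt e)} x y

/-- `w` is accessible, its cluster touches the boundary, and a thick path which avoids the cluster
starts near `w`. -/
def Ev (M B n : ℕ) (w : ℤ × ℤ) (F : Finset Edg) : Prop :=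
  E n w F ∧ Thk M B (2 * n) w (Plain.cluster F w)

theorem psi0 (w : Vtx) : (trl w.1 w.2).ψ (0, 0) = w := by rw [trl_ψ, zero_add, zero_add]

theorem re_blk {n m : ℕ} {w : Vtx} (hw : w ∈ Ctr n) (hm : n ≤ m) {e : Edg}
    (he : e ∈ RE 0 n 0 n) : (trl w.1 w.2).φ.symm e ∈ H12S.blk (0, 0) m := by
  rw [← blk_sh (v := w), Equiv.apply_symm_apply]
  exact TONE.blk_mono w hm (TONE.re_sub hw he)

theorem blk_box (m : ℕ) : H12S.blk (0, 0) m = boxE m := by
  unfold H12S.blk boxE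
  simp only [zero_sub, zero_add]

theorem cl_sh {n m : ℕ} {w : Vtx} {F : Finset Edg} (hw : w ∈ Ctr n) (hm : n ≤ m) {x : Vtx}
    (hx : x ∈ Plain.cluster (((trl w.1 w.2).mp F) ∩ RE 0 n 0 n) w) :
    (trl w.1 w.2).ψ.symm x ∈ cl m ↑F := by
  rw [Plain.mem_cluster] at hx
  have h1 := (trl w.1 w.2).inv.reach hx
  have e0 : (trl w.1 w.2).ψ.symm w = (0, 0) := by
    rw [Equiv.symm_apply_eq]
    exact (psi0 w).symm
  have h2 : Reach (↑F ∩ ↑(boxE m) : Set Edg) ((trl w.1 w.2).ψ.symm w)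
      ((trl w.1 w.2).ψ.symm x) := by
    refine h1.mono ?_
    rintro _ ⟨e, he, rfl⟩
    rw [Finset.mem_coe, Finset.mem_inter] at he
    refine ⟨?_, ?_⟩
    · have h3 := he.1
      rw [LSym.mem_mp] at h3
      exact h3
    · rw [← blk_box]
      exact re_blk hw hm he.2
  rw [e0] at h2
  exact h2

theorem det {M B n : ℕ} {w : Vtx} {F : Finset Edg} (hn : 1 ≤ n) (hw : w ∈ Ctr n)
    (hA : Pool.Agent.Y989.FR.Acc (128 * n) ↑F) (hT : TkA M B (2 * n) (128 * n) ↑F) :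
    Ev M B n w (((trl w.1 w.2).mp F) ∩ RE 0 n 0 n) := by
  set G := ((trl w.1 w.2).mp F) ∩ RE 0 n 0 n with hG
  have hcl : ∀ x, x ∈ Plain.cluster G w → (trl w.1 w.2).ψ.symm x ∈ cl (128 * n) ↑F :=
    fun x hx => cl_sh hw (by omega) hx
  have hwin : inR 0 n 0 n w := by
    unfold Ctr at hw
    obtain ⟨h1, -, -⟩ := Finset.mem_filter.1 hw
    unfold Plain.box at h1
    rw [Finset.mem_product, Finset.mem_Icc, Finset.mem_Icc] at h1
    exact h1
  obtain ⟨⟨z, hz, hzc⟩, h10, y, hy, hr⟩ := hA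
  refine ⟨⟨⟨?_, (trl w.1 w.2).φ (0, 0, true), (trl w.1 w.2).ψ (1, 0), (trl w.1 w.2).ψ y,
    ?_, ?_, ?_, ?_⟩, ?_⟩, ?_⟩
  · rw [Plain.mem_cluster]
    exact Reach.refl _ _
  · left
    rw [Plain.fst_eq, Plain.snd_eq, src_trl, tgt_trl]
    refine ⟨?_, ?_⟩
    · rw [src_mk, psi0]
    · rw [tgt_true]
      rfl
  · intro h
    have h2 := hcl _ h
    rw [Equiv.symm_apply_apply] at h2
    exact h10 h2
  · intro h
    have hy2 := (bdB_sh (v := w)).2 hy
    unfold Plain.box at h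
    rw [Finset.mem_product, Finset.mem_Icc, Finset.mem_Icc] at h
    rw [mem_bdB_iff] at hy2
    unfold Pool.Agent.W424.OD.BX inR at hy2
    unfold inR at hwin
    push_cast at hy2
    omega
  · apply TDET.reach_avoid
    refine reach_sh ?_ hr
    rintro e ⟨-, h2, h3⟩
    refine ⟨?_, ?_⟩
    · intro h4
      rw [src_trl] at h4
      have h5 := hcl _ h4
      rw [Equiv.symm_apply_apply] at h5
      exact h2 h5
    · intro h4
      rw [tgt_trl] at h4
      have h5 := hcl _ h4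
      rw [Equiv.symm_apply_apply] at h5
      exact h3 h5
  · have hz2 := (bdB_sh (v := w)).2 hz
    have h1 : Reach (↑((trl w.1 w.2).mp F) : Set Edg) w ((trl w.1 w.2).ψ z) := by
      have h2 := reach_sh (s := w.1) (t := w.2) (F := (↑((trl w.1 w.2).mp F) : Set Edg)) ?_ hzc
      · rwa [psi0] at h2
      · rintro e ⟨h3, -⟩
        rw [Finset.mem_coe, LSym.mem_mp, Equiv.symm_apply_apply]
        exact h3
    rcases TDET.firstBox hwin h1 with ⟨h2, -⟩ | ⟨t, ht, h2⟩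
    · exfalso
      rw [mem_bdB_iff] at hz2
      unfold Pool.Agent.W424.OD.BX inR at hz2
      unfold inR at h2 hwin
      push_cast at hz2
      omega
    · refine ⟨t, ?_, ht⟩
      rw [Plain.mem_cluster]
      refine h2.mono ?_
      rw [hG, Finset.coe_inter]
  · have key : ∀ x : Vtx, (∀ c ∈ cl (128 * n) (↑F : Set Edg), Awy M B (2 * n) (0, 0) c x) →
        ∀ c ∈ Plain.cluster G w, Awy M B (2 * n) w c ((trl w.1 w.2).ψ x) := by
      intro x hx c hc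
      have h1 := hx _ (hcl _ hc)
      unfold Awy at h1 ⊢
      have h2 : sd ((trl w.1 w.2).ψ x) w = sd x (0, 0) := by
        have h4 := sd_sh w.1 w.2 x (0, 0)
        rwa [psi0] at h4
      have h3 : sd ((trl w.1 w.2).ψ x) c = sd x ((trl w.1 w.2).ψ.symm c) := by
        have h4 := sd_sh w.1 w.2 x ((trl w.1 w.2).ψ.symm c)
        rwa [Equiv.apply_symm_apply] at h4
      rw [h2, h3]
      exact h1
    obtain ⟨x, hx, y, hy, hr⟩ := hT
    refine ⟨(trl w.1 w.2).ψ x, bdB_sh.2 hx, (trl w.1 w.2).ψ y, bdB_sh.2 hy, reach_sh ?_ hr⟩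
    rintro e ⟨h1, h2, h3⟩
    refine ⟨?_, ?_, ?_⟩
    · unfold Pool.Agent.Y989.FR.AE at h1 ⊢
      rw [Finset.mem_coe, Finset.mem_sdiff] at h1 ⊢
      rw [blk_sh, blk_sh]
      exact h1
    · rw [src_trl]
      exact key _ h2
    · rw [tgt_trl]
      exact key _ h3

/-- the one-point lower bound -/
theorem one (hACC : S_ACC) (hTHK : S_THK) : ∃ (M B n0 : ℕ) (c : ℝ), 16 ≤ M ∧ 1 ≤ B ∧ 16 ≤ n0 ∧
    0 < c ∧ ∀ n : ℕ, n0 ≤ n → ∀ w ∈ Ctr n, c * (n : ℝ) ^ (-(2 / 3 : ℝ)) ≤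
      Pr (fun _ => (1 / 2 : ℝ)) (RE 0 n 0 n) (Ev M B n w) := by
  obtain ⟨c, hc, h1⟩ := hACC
  obtain ⟨M, B, m0, hM, hB, h2⟩ := hTHK (c / 2) (by positivity)
  refine ⟨M, B, max m0 16, c / 2 * (128 : ℝ) ^ (-(2 / 3 : ℝ)), hM, hB, le_max_right _ _,
    by positivity, ?_⟩
  intro n hn w hw
  have hn0 : m0 ≤ n := (le_max_left _ _).trans hn
  have hn16 : 16 ≤ n := (le_max_right _ _).trans hn
  have ok : Ok (fun _ : Edg => (1 / 2 : ℝ)) := TONE.okh
  have e1 := h1 (128 * n) (by omega)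
  have e2 := h2 (128 * n) (by omega)
  have hdiv : 128 * n / 64 = 2 * n := by omega
  rw [hdiv] at e2
  have e3 : PQ (1 / 2) (boxE (128 * n)) (fun F => Pool.Agent.Y989.FR.Acc (128 * n) ↑F) ≤
      PQ (1 / 2) (boxE (128 * n)) (fun F => Pool.Agent.Y989.FR.Acc (128 * n) ↑F ∧ TkA M B (2 * n) (128 * n) ↑F) +
      PQ (1 / 2) (boxE (128 * n))
        (fun F => Pool.Agent.Y989.FR.Acc (128 * n) ↑F ∧ ¬ TkA M B (2 * n) (128 * n) ↑F) := by
    refine le_trans (Pr_mono ok ?_) (Pr_or_le ok (boxE (128 * n)) _ _)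
    intro F _ h
    by_cases hT : TkA M B (2 * n) (128 * n) ↑F
    · exact Or.inl ⟨h, hT⟩
    · exact Or.inr ⟨h, hT⟩
  have e4 : c / 2 * ((128 * n : ℕ) : ℝ) ^ (-(2 / 3 : ℝ)) ≤
      PQ (1 / 2) (boxE (128 * n))
        (fun F => Pool.Agent.Y989.FR.Acc (128 * n) ↑F ∧ TkA M B (2 * n) (128 * n) ↑F) := by linarith
  have e5 : ((128 * n : ℕ) : ℝ) ^ (-(2 / 3 : ℝ)) =
      (128 : ℝ) ^ (-(2 / 3 : ℝ)) * (n : ℝ) ^ (-(2 / 3 : ℝ)) := by
    push_cast
    rw [Real.mul_rpow (by norm_num) (Nat.cast_nonneg n)]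
  rw [e5, ← mul_assoc] at e4
  refine e4.trans ?_
  have hsub : RE 0 n 0 n ⊆ (trl w.1 w.2).mp (boxE (128 * n)) := by
    intro e he
    rw [LSym.mem_mp, ← blk_box]
    exact re_blk hw (by omega) he
  calc PQ (1 / 2) (boxE (128 * n))
        (fun F => Pool.Agent.Y989.FR.Acc (128 * n) ↑F ∧ TkA M B (2 * n) (128 * n) ↑F)
      ≤ Pr (fun _ => (1 / 2 : ℝ)) (boxE (128 * n))
        (fun F => Ev M B n w (((trl w.1 w.2).mp F) ∩ RE 0 n 0 n)) := by
        refine Pr_mono ok ?_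
        rintro F _ ⟨k1, k2⟩
        exact det (by omega) hw k1 k2
    _ = Pr (fun _ => (1 / 2 : ℝ)) ((trl w.1 w.2).mp (boxE (128 * n)))
        (fun F => Ev M B n w (F ∩ RE 0 n 0 n)) := by
        rw [LSym.pr]
    _ = Pr (fun _ => (1 / 2 : ℝ)) (RE 0 n 0 n) (Ev M B n w) := by
        rw [Pr_local hsub (A := fun F => Ev M B n w (F ∩ RE 0 n 0 n))
          (fun F _ => by rw [Finset.inter_assoc, Finset.inter_self])]
        apply Pr_congr
        intro F hF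
        rw [Finset.inter_eq_left.mpr hF]

end Pool.Agent.W2helper75.OB
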